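import Pool.Agent.L7h67.WA.Stm

/-! [WA-GM] of project WA (helper67): the Gaussian mean value. -/

set_option autoImplicit false

namespace Pool.Agent.L7h22.WA

open Finset MeasureTheory Polynomial Filter Topology
open Pool.Agent.L7h67.WA

theorem card_bx {ι : Type} [Fintype ι] [DecidableEq ι] (a : ι → ℕ) (P : ℕ) :
    (#(bx a P) : ℝ) = (∏ i, (3 * (a i : ℝ))) * (P : ℝ) ^ Fintype.card ι := by
  unfold bx
  rw [Fintype.card_piFinset]
  have h1 : ∀ i, #(Ioc (a i * P) (4 * (a i * P))) = 3 * a i * P := by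
    intro i
    rw [Nat.card_Ioc]
    have : 4 * (a i * P) = 3 * a i * P + a i * P := by ring
    omega
  simp only [h1]
  push_cast
  rw [Finset.prod_mul_distrib, Finset.prod_const, Finset.card_univ]

/-- polynomial times a Gaussian of a small power tends to zero -/
theorem pow_exp (A δ c : ℝ) (hδ : 0 < δ) (hc : 0 < c) :
    Tendsto (fun x : ℝ => x ^ A * Real.exp (-(c * x ^ δ))) atTop (𝓝 0) := by
  have h1 := tendsto_rpow_mul_exp_neg_mul_atTop_nhds_zero (A / δ) c hc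
  have h2 := h1.comp (tendsto_rpow_atTop hδ)
  refine h2.congr' ?_
  filter_upwards [eventually_gt_atTop 0] with x hx
  simp only [Function.comp_apply]
  rw [← Real.rpow_mul hx.le, mul_div_cancel₀ _ hδ.ne', neg_mul]

theorem gs_le_one (w t : ℝ) : gs w t ≤ 1 := by
  unfold gs
  rw [Real.exp_le_one_iff]
  have : 0 ≤ Real.pi * t ^ 2 / w ^ 2 := by positivity
  linarith

theorem s_GM : S_GM := by
  classical
  intro k F a hMV ρ hρ ε hε
  have h1 := hMV (ε / 6) (by positivity)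
  have hP : Tendsto (fun l : ℕ => (2 : ℝ) ^ l) atTop atTop :=
    tendsto_pow_atTop_atTop_of_one_lt one_lt_two
  set K : ℝ := ∏ i, (3 * (a i : ℝ)) with hK
  have hK0 : 0 ≤ K := Finset.prod_nonneg fun i _ => by positivity
  -- the far pairs
  have h2 : ∀ᶠ x : ℝ in atTop, K ^ 2 * (x ^ (2 * (k : ℝ)) *
      Real.exp (-(Real.pi / 4 * x ^ (ε / 3)))) ≤ 1 := by
    have h3 := (pow_exp (2 * (k : ℝ)) (ε / 3) (Real.pi / 4) (by positivity) (by positivity)).const_mul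
      (K ^ 2)
    rw [mul_zero] at h3
    exact h3.eventually_le_const one_pos
  have h3 : ∀ᶠ x : ℝ in atTop, 4 * (k : ℝ) ≤ x ^ (ε / 6) :=
    (tendsto_rpow_atTop (by positivity)).eventually_ge_atTop _
  have h4 : ∀ᶠ x : ℝ in atTop, 2 ≤ x ^ (ε / 2) :=
    (tendsto_rpow_atTop (by positivity)).eventually_ge_atTop _
  filter_upwards [h1, hP.eventually h2, hP.eventually h3, hP.eventually h4] with l e1 e2 e3 e4
  set P : ℝ := (2 : ℝ) ^ l with hPdef
  have hP1 : 1 ≤ P := one_le_pow₀ (by norm_num)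
  have hP0 : 0 < P := by linarith
  set L : ℝ := P ^ (ε / 6) with hL
  -- one pair
  set D : (Fin k → ℕ) × (Fin k → ℕ) → ℝ := fun p =>
    ∑ i, (F i).eval (p.1 i : ℝ) - ∑ i, (F i).eval (p.2 i : ℝ) with hD
  have hfar : ∀ p : (Fin k → ℕ) × (Fin k → ℕ), L < |D p| →
      gs 1 (∑ i, ρ ((F i).eval (p.1 i : ℝ)) - ∑ i, ρ ((F i).eval (p.2 i : ℝ))) ≤
        Real.exp (-(Real.pi / 4 * P ^ (ε / 3))) := by
    intro p hp
    have hs : ∀ x : Fin k → ℕ, |∑ i, ρ ((F i).eval (x i : ℝ)) - ∑ i, (F i).eval (x i : ℝ)| ≤ k := by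
      intro x
      rw [← Finset.sum_sub_distrib]
      refine (Finset.abs_sum_le_sum_abs _ _).trans ?_
      refine (Finset.sum_le_sum fun i _ => hρ _).trans ?_
      simp
    have h5 := hs p.1
    have h6 := hs p.2
    set s := ∑ i, ρ ((F i).eval (p.1 i : ℝ)) - ∑ i, ρ ((F i).eval (p.2 i : ℝ)) with hs'
    have h7 : |D p| ≤ |s| + 2 * k := by
      have h8 : D p = s - (∑ i, ρ ((F i).eval (p.1 i : ℝ)) - ∑ i, (F i).eval (p.1 i : ℝ)) +
          (∑ i, ρ ((F i).eval (p.2 i : ℝ)) - ∑ i, (F i).eval (p.2 i : ℝ)) := by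
        rw [hs', hD]
        ring
      rw [h8]
      refine (abs_add_le _ _).trans ?_
      have h9 := abs_sub s (∑ i, ρ ((F i).eval (p.1 i : ℝ)) - ∑ i, (F i).eval (p.1 i : ℝ))
      linarith
    have h8 : L / 2 ≤ |s| := by linarith
    unfold gs
    apply Real.exp_le_exp.2
    rw [neg_le_neg_iff]
    have h9 : P ^ (ε / 3) = L ^ 2 := by
      rw [hL, ← Real.rpow_natCast, ← Real.rpow_mul hP0.le]
      congr 1
      push_cast
      ring
    rw [h9]
    have h10 : (L / 2) ^ 2 ≤ s ^ 2 := by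
      rw [← sq_abs s]
      apply pow_le_pow_left₀ _ h8
      rw [hL]
      positivity
    have hpi := Real.pi_pos
    rw [one_pow, div_one]
    nlinarith
  rw [← Finset.sum_product']
  have h5 : ∑ p ∈ bx a (2 ^ l) ×ˢ bx a (2 ^ l),
      gs 1 (∑ i, ρ ((F i).eval (p.1 i : ℝ)) - ∑ i, ρ ((F i).eval (p.2 i : ℝ))) ≤
      ∑ p ∈ bx a (2 ^ l) ×ˢ bx a (2 ^ l), ((if |D p| ≤ L then (1 : ℝ) else 0) +
        Real.exp (-(Real.pi / 4 * P ^ (ε / 3)))) := by
    apply Finset.sum_le_sum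
    intro p _
    by_cases hp : |D p| ≤ L
    · rw [if_pos hp]
      have := gs_le_one 1 (∑ i, ρ ((F i).eval (p.1 i : ℝ)) - ∑ i, ρ ((F i).eval (p.2 i : ℝ)))
      have := Real.exp_pos (-(Real.pi / 4 * P ^ (ε / 3)))
      linarith
    · rw [if_neg hp, zero_add]
      exact hfar p (not_le.1 hp)
  refine h5.trans ?_
  rw [Finset.sum_add_distrib, Finset.sum_const, nsmul_eq_mul, Finset.card_product]
  have h6 : ∑ p ∈ bx a (2 ^ l) ×ˢ bx a (2 ^ l), (if |D p| ≤ L then (1 : ℝ) else 0) =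
      (cnt F a (2 ^ l) L : ℝ) := by
    unfold cnt
    rw [Finset.sum_ite, Finset.sum_const_zero, add_zero, Finset.sum_const, nsmul_eq_mul, mul_one]
  rw [h6]
  have h7 : (#(bx a (2 ^ l)) : ℝ) = K * P ^ (k : ℝ) := by
    rw [card_bx, Fintype.card_fin, Real.rpow_natCast, hPdef]
    push_cast
    rfl
  have h8 : ((#(bx a (2 ^ l)) * #(bx a (2 ^ l)) : ℕ) : ℝ) *
      Real.exp (-(Real.pi / 4 * P ^ (ε / 3))) ≤ 1 := by
    push_cast
    rw [h7]
    have h9 : P ^ (2 * (k : ℝ)) = P ^ (k : ℝ) * P ^ (k : ℝ) := by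
      rw [← Real.rpow_add hP0]
      congr 1
      ring
    rw [h9] at e2
    calc K * P ^ (k : ℝ) * (K * P ^ (k : ℝ)) * Real.exp (-(Real.pi / 4 * P ^ (ε / 3)))
        = K ^ 2 * (P ^ (k : ℝ) * P ^ (k : ℝ) * Real.exp (-(Real.pi / 4 * P ^ (ε / 3)))) := by ring
      _ ≤ 1 := e2
  have h9 : (k : ℝ) + 3 * (ε / 6) = (k : ℝ) + ε / 2 := by ring
  rw [h9] at e1
  have h10 : P ^ ((k : ℝ) + ε) = P ^ ((k : ℝ) + ε / 2) * P ^ (ε / 2) := by
    rw [← Real.rpow_add hP0]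
    congr 1
    ring
  have h11 : 1 ≤ P ^ ((k : ℝ) + ε / 2) := Real.one_le_rpow hP1 (by positivity)
  rw [h10]
  nlinarith

end Pool.Agent.L7h22.WA
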