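import Pool.Agent.L7h22.WA.Maint
import Pool.Agent.L7h22.WA.Gm

/-! [WA-FIN2], first part (project WA, helper67): one dyadic block of exceptional integers. -/

set_option autoImplicit false

namespace Pool.Agent.L7h22.WA

open Finset MeasureTheory Polynomial Filter Topology
open Pool.Agent.L7h67.WA

/-! ### the mean value of a set of integers -/

theorem gs_int (m : ℤ) : gs 1 (m : ℝ) ≤ (1 / 2 : ℝ) ^ m.natAbs := by
  unfold gs
  have h1 : (m.natAbs : ℝ) ≤ (m : ℝ) ^ 2 := by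
    have h2 : |m| ≤ m ^ 2 := by
      have h3 := Int.natAbs_le_self_sq m
      rwa [Int.natCast_natAbs] at h3
    rw [Nat.cast_natAbs]
    exact_mod_cast h2
  have h2 : Real.exp (-(Real.pi * (m : ℝ) ^ 2 / 1 ^ 2)) ≤ Real.exp (-(m.natAbs : ℝ)) := by
    apply Real.exp_le_exp.2
    have := Real.pi_gt_three
    nlinarith [sq_nonneg (m : ℝ)]
  refine h2.trans ?_
  have h3 : Real.exp (-(m.natAbs : ℝ)) = (Real.exp (-1)) ^ m.natAbs := by
    rw [← Real.exp_nat_mul]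
    congr 1
    ring
  rw [h3]
  apply pow_le_pow_left₀ (Real.exp_pos _).le
  have h4 : (2 : ℝ) ≤ Real.exp 1 := by
    have := Real.add_one_le_exp (1 : ℝ)
    linarith
  rw [Real.exp_neg, one_div]
  exact inv_anti₀ (by norm_num) h4

theorem sum_half (Y : Finset ℕ) (n : ℕ) :
    ∑ n' ∈ Y, (1 / 2 : ℝ) ^ ((n : ℤ) - n').natAbs ≤ 4 := by
  classical
  have hs : Summable (fun i : ℕ => (1 / 2 : ℝ) ^ i) := summable_geometric_two
  have ht : ∑' i : ℕ, (1 / 2 : ℝ) ^ i = 2 := tsum_geometric_two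
  rw [← Finset.sum_filter_add_sum_filter_not Y (fun n' => n' ≤ n)]
  have h1 : ∑ n' ∈ Y with n' ≤ n, (1 / 2 : ℝ) ^ ((n : ℤ) - n').natAbs ≤ 2 := by
    refine le_trans ?_ (le_of_eq ht)
    rw [← Finset.sum_image (f := fun i : ℕ => (1 / 2 : ℝ) ^ i)
      (g := fun n' : ℕ => ((n : ℤ) - n').natAbs)]
    · exact hs.sum_le_tsum _ (fun i _ => by positivity)
    · intro x hx y hy hxy
      simp only [coe_filter, Set.mem_ofPred_eq] at hx hy
      simp only at hxy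
      omega
  have h2 : ∑ n' ∈ Y with ¬ n' ≤ n, (1 / 2 : ℝ) ^ ((n : ℤ) - n').natAbs ≤ 2 := by
    refine le_trans ?_ (le_of_eq ht)
    rw [← Finset.sum_image (f := fun i : ℕ => (1 / 2 : ℝ) ^ i)
      (g := fun n' : ℕ => ((n : ℤ) - n').natAbs)]
    · exact hs.sum_le_tsum _ (fun i _ => by positivity)
    · intro x hx y hy hxy
      simp only [coe_filter, Set.mem_ofPred_eq] at hx hy
      simp only at hxy
      omega
  linarith

theorem mb_le (Y : Finset ℕ) (κ : ℝ) :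
    ∑ y ∈ Y, ∑ y' ∈ Y, gs 1 (-((y : ℝ) + κ) - -((y' : ℝ) + κ)) ≤ 4 * #Y := by
  have h1 : ∀ y ∈ Y, ∑ y' ∈ Y, gs 1 (-((y : ℝ) + κ) - -((y' : ℝ) + κ)) ≤ 4 := by
    intro y _
    refine le_trans (Finset.sum_le_sum fun y' _ => ?_) (sum_half Y y)
    have h2 : -((y : ℝ) + κ) - -((y' : ℝ) + κ) = (((y' : ℤ) - y : ℤ) : ℝ) := by
      push_cast
      ring
    rw [h2]
    refine (gs_int _).trans (le_of_eq ?_)
    congr 1
    omega
  refine (Finset.sum_le_sum h1).trans (le_of_eq ?_)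
  rw [Finset.sum_const, nsmul_eq_mul, mul_comm]

theorem gs_small {w δ t : ℝ} (hw : 0 < w) (hδ : 0 ≤ δ) (h : δ ≤ |t|) :
    gs w t ≤ Real.exp (-(Real.pi * (δ / w) ^ 2)) := by
  unfold gs
  apply Real.exp_le_exp.2
  rw [neg_le_neg_iff, div_pow, mul_div_assoc]
  apply mul_le_mul_of_nonneg_left _ Real.pi_pos.le
  apply div_le_div_of_nonneg_right _ (by positivity)
  rw [← sq_abs t]
  exact pow_le_pow_left₀ hδ h 2

/-- the value of the form at the scale `s` -/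
noncomputable def VV {k : ℕ} (FA : Fin k → ℝ[X]) (F0 : ℝ[X]) (aA : Fin k → ℕ) (a0 : ℕ) (s : ℝ) : ℝ :=
  ∑ i, (FA i).eval (s * (aA i : ℝ)) + F0.eval (s * (a0 : ℝ))

/-- one block -/
theorem block (hcore : S_CORE) (k : ℕ) (hk : 2 ≤ k) (σ : ℝ) (hσ : 0 < σ) (hσ1 : σ ≤ 1 / 4)
    (FA : Fin k → ℝ[X]) (F0 : ℝ[X]) (aA : Fin k → ℕ) (a0 : ℕ)
    (hFA : ∀ i, (FA i).natDegree = k ∧ 0 < (FA i).leadingCoeff) (hF0 : F0.natDegree = k)
    (hl0 : 0 < F0.leadingCoeff) (haA : ∀ i, 1 ≤ aA i) (ha0 : 1 ≤ a0) (hMV : MV FA aA)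
    (hsup : ∀ᶠ P : ℕ in atTop, ∀ β : ℝ, |β| ≤ (P : ℝ) ^ σ →
      ‖WS F0 a0 P β - WI F0 a0 P β‖ ≤ (P : ℝ) ^ (1 - σ))
    (M : ℕ) (ρ : ℝ → ℝ) (hρ : ∀ t, |ρ t - t| ≤ 1) (κ : ℝ) :
    ∀ᶠ l : ℕ in atTop, ∀ Y : Finset ℕ,
      (∀ n ∈ Y, VV FA F0 aA a0 (3 / 2 * (2 : ℝ) ^ l) ≤ n + κ ∧
        (n : ℝ) + κ ≤ VV FA F0 aA a0 (3 * (2 : ℝ) ^ l)) →
      (∀ n ∈ Y, ∀ x : Fin k → ℕ, ∀ z : ℕ, (∀ i, M ≤ x i) → M ≤ z →
        ((2 : ℝ) ^ l) ^ (-(σ / 8)) ≤
          |∑ i, ρ ((FA i).eval (x i : ℝ)) + F0.eval (z : ℝ) - (n + κ)|) →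
      (#Y : ℝ) ≤ ((2 : ℝ) ^ l) ^ ((k : ℝ) - σ) := by
  obtain ⟨c0, hc0, hmain⟩ := s_MAINT (Fin k) k FA F0 aA a0 (by omega) hFA hF0 hl0 haA ha0
  have hgm := s_GM k FA aA hMV ρ hρ (σ / 4) (by positivity)
  have hP : Tendsto (fun l : ℕ => (2 : ℝ) ^ l) atTop atTop :=
    tendsto_pow_atTop_atTop_of_one_lt one_lt_two
  have hPn : Tendsto (fun l : ℕ => 2 ^ l) atTop (atTop : Filter ℕ) :=
    tendsto_pow_atTop_atTop_of_one_lt (one_lt_two : (1 : ℕ) < 2)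
  set K : ℝ := ∏ i, (3 * (aA i : ℝ)) with hK
  have hK0 : 0 ≤ K := Finset.prod_nonneg fun i _ => by positivity
  have ha0' : (1 : ℝ) ≤ a0 := by exact_mod_cast ha0
  -- the error terms
  have e1 : ∀ᶠ x : ℝ in atTop, (3 * K * a0 / (c0 / 4)) *
      (x ^ ((k : ℝ) + σ / 4) * Real.exp (-(Real.pi * x ^ (σ / 4)))) ≤ 1 := by
    have h3 := (pow_exp ((k : ℝ) + σ / 4) (σ / 4) Real.pi (by positivity) Real.pi_pos).const_mul
      (3 * K * a0 / (c0 / 4))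
    rw [mul_zero] at h3
    exact h3.eventually_le_const one_pos
  have e2 : ∀ᶠ x : ℝ in atTop, (12 * K * a0 / (c0 / 4)) *
      (x ^ ((k : ℝ) + σ / 4) * Real.exp (-(Real.pi / 2 * x ^ (3 * σ / 2)))) ≤ 1 := by
    have h3 := (pow_exp ((k : ℝ) + σ / 4) (3 * σ / 2) (Real.pi / 2) (by positivity)
      (by positivity)).const_mul (12 * K * a0 / (c0 / 4))
    rw [mul_zero] at h3
    exact h3.eventually_le_const one_pos
  have e3 : ∀ᶠ x : ℝ in atTop, 16 / c0 ^ 2 ≤ x ^ (σ / 4) :=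
    (tendsto_rpow_atTop (by positivity)).eventually_ge_atTop _
  filter_upwards [hgm, hPn.eventually hmain, hPn.eventually hsup, hP.eventually e1,
    hP.eventually e2, hP.eventually e3, hPn.eventually (eventually_ge_atTop (max M 1))]
    with l g1 g2 g3 g4 g5 g6 g7 Y hY1 hY2
  have hcast : (((2 ^ l : ℕ)) : ℝ) = (2 : ℝ) ^ l := by push_cast; rfl
  simp only [hcast] at g2 g3
  set P : ℝ := (2 : ℝ) ^ l with hPdef
  have hP1 : 1 ≤ P := one_le_pow₀ (by norm_num)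
  have hP0 : 0 < P := by linarith
  set w : ℝ := P ^ (-(σ / 4)) with hw
  have hw0 : 0 < w := Real.rpow_pos_of_pos hP0 _
  have hw1 : w ≤ 1 := Real.rpow_le_one_of_one_le_of_nonpos hP1 (by linarith)
  rcases Y.eq_empty_or_nonempty with hYe | hYne
  · rw [hYe, Finset.card_empty, Nat.cast_zero]
    positivity
  have hYc : (1 : ℝ) ≤ #Y := by exact_mod_cast Finset.card_pos.2 hYne
  have hYc0 : (0 : ℝ) < #Y := by linarith
  -- the core inequality
  have hXA : (#(bx aA (2 ^ l)) : ℝ) = K * P ^ (k : ℝ) := by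
    rw [card_bx, Fintype.card_fin, Real.rpow_natCast, hcast]
  have hc := hcore (Fin k → ℕ) ℕ (bx aA (2 ^ l)) Y (fun x => ∑ i, ρ ((FA i).eval (x i : ℝ)))
    (fun n => -((n : ℝ) + κ)) F0 a0 (2 ^ l) w (P ^ σ) (P ^ (1 - σ)) (P ^ ((k : ℝ) + σ / 4))
    (4 * #Y) 0 hw0 hw1 (by positivity) (by positivity) g3 g1 (mb_le Y κ)
  -- the main term
  have hmainY : (#Y : ℝ) * (c0 * w * P) ≤ ∑ x ∈ bx aA (2 ^ l), ∑ y ∈ Y,
      GI F0 a0 (2 ^ l) w (0 - ∑ i, ρ ((FA i).eval (x i : ℝ)) - -((y : ℝ) + κ)) := by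
    rw [Finset.sum_comm]
    have h1 : ∀ y ∈ Y, c0 * w * P ≤ ∑ x ∈ bx aA (2 ^ l),
        GI F0 a0 (2 ^ l) w (0 - ∑ i, ρ ((FA i).eval (x i : ℝ)) - -((y : ℝ) + κ)) := by
      intro y hy
      obtain ⟨h2, h3⟩ := hY1 y hy
      have h4 := g2 w hw0 hw1 ((y : ℝ) + κ) (by
        refine le_trans (le_of_eq ?_) h2
        unfold VV
        congr 1
        · apply Finset.sum_congr rfl
          intro i _
          congr 1
          ring
        · congr 1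
          ring) (by
        refine le_trans h3 (le_of_eq ?_)
        unfold VV
        congr 1
        · apply Finset.sum_congr rfl
          intro i _
          congr 1
          ring
        · congr 1
          ring) ρ hρ
      refine le_trans (le_of_eq ?_) (h4.trans (le_of_eq ?_))
      · rw [Fintype.card_fin]
        have h5 : P ^ k = P ^ (k - 1) * P := by
          rw [← pow_succ]
          congr 1
          omega
        rw [h5]
        have h6 : P ^ (k - 1) ≠ 0 := (pow_pos hP0 _).ne'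
        field_simp
      · apply Finset.sum_congr rfl
        intro x _
        congr 1
        ring
    calc (#Y : ℝ) * (c0 * w * P) = ∑ y ∈ Y, c0 * w * P := by rw [Finset.sum_const, nsmul_eq_mul]
      _ ≤ _ := Finset.sum_le_sum h1
  -- the sum
  have hsumY : ∑ x ∈ bx aA (2 ^ l), ∑ y ∈ Y,
      GS F0 a0 (2 ^ l) w (0 - ∑ i, ρ ((FA i).eval (x i : ℝ)) - -((y : ℝ) + κ)) ≤
      (#(bx aA (2 ^ l)) : ℝ) * (#Y * ((3 * (a0 * P)) * Real.exp (-(Real.pi * P ^ (σ / 4))))) := by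
    have h1 : ∀ x ∈ bx aA (2 ^ l), ∀ y ∈ Y,
        GS F0 a0 (2 ^ l) w (0 - ∑ i, ρ ((FA i).eval (x i : ℝ)) - -((y : ℝ) + κ)) ≤
        (3 * (a0 * P)) * Real.exp (-(Real.pi * P ^ (σ / 4))) := by
      intro x hx y hy
      unfold GS
      have h2 : ∀ z ∈ Ioc (a0 * 2 ^ l) (4 * (a0 * 2 ^ l)),
          gs w (F0.eval (z : ℝ) - (0 - ∑ i, ρ ((FA i).eval (x i : ℝ)) - -((y : ℝ) + κ))) ≤
          Real.exp (-(Real.pi * P ^ (σ / 4))) := by
        intro z hz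
        rw [Finset.mem_Ioc] at hz
        have hMl : M ≤ 2 ^ l := (le_max_left _ _).trans g7
        have hxM : ∀ i, M ≤ x i := by
          intro i
          unfold bx at hx
          rw [Fintype.mem_piFinset] at hx
          have h3 := hx i
          rw [Finset.mem_Ioc] at h3
          have h4 : 2 ^ l ≤ aA i * 2 ^ l := Nat.le_mul_of_pos_left _ (haA i)
          omega
        have hzM : M ≤ z := by
          have h4 : 2 ^ l ≤ a0 * 2 ^ l := Nat.le_mul_of_pos_left _ ha0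
          omega
        have h3 := hY2 y hy x z hxM hzM
        have h4 : F0.eval (z : ℝ) - (0 - ∑ i, ρ ((FA i).eval (x i : ℝ)) - -((y : ℝ) + κ)) =
            ∑ i, ρ ((FA i).eval (x i : ℝ)) + F0.eval (z : ℝ) - (y + κ) := by ring
        rw [h4]
        refine (gs_small hw0 (by positivity) h3).trans (le_of_eq ?_)
        congr 3
        rw [hw, ← Real.rpow_sub hP0, ← Real.rpow_natCast, ← Real.rpow_mul hP0.le]
        congr 1
        push_cast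
        ring
      refine (Finset.sum_le_sum h2).trans (le_of_eq ?_)
      rw [Finset.sum_const, nsmul_eq_mul, Nat.card_Ioc]
      congr 1
      have h5 : 4 * (a0 * 2 ^ l) - a0 * 2 ^ l = 3 * (a0 * 2 ^ l) := by omega
      rw [h5]
      push_cast
      rfl
    calc _ ≤ ∑ x ∈ bx aA (2 ^ l), ∑ y ∈ Y, (3 * (a0 * P)) * Real.exp (-(Real.pi * P ^ (σ / 4))) :=
          Finset.sum_le_sum fun x hx => Finset.sum_le_sum fun y hy => h1 x hx y hy
      _ = _ := by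
          rw [Finset.sum_const, nsmul_eq_mul, Finset.sum_const, nsmul_eq_mul]
  -- together
  have hdist : ∑ x ∈ bx aA (2 ^ l), ∑ y ∈ Y,
      (GS F0 a0 (2 ^ l) w (0 - ∑ i, ρ ((FA i).eval (x i : ℝ)) - -((y : ℝ) + κ)) -
        GI F0 a0 (2 ^ l) w (0 - ∑ i, ρ ((FA i).eval (x i : ℝ)) - -((y : ℝ) + κ))) =
      ∑ x ∈ bx aA (2 ^ l), ∑ y ∈ Y,
        GS F0 a0 (2 ^ l) w (0 - ∑ i, ρ ((FA i).eval (x i : ℝ)) - -((y : ℝ) + κ)) -
      ∑ x ∈ bx aA (2 ^ l), ∑ y ∈ Y,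
        GI F0 a0 (2 ^ l) w (0 - ∑ i, ρ ((FA i).eval (x i : ℝ)) - -((y : ℝ) + κ)) := by
    rw [← Finset.sum_sub_distrib]
    apply Finset.sum_congr rfl
    intro x _
    rw [Finset.sum_sub_distrib]
  rw [hdist] at hc
  have hc2 := (abs_le.1 hc).1
  -- the error terms
  have hwP : w * P ^ (σ / 4) = 1 := by
    rw [hw, ← Real.rpow_add hP0]
    simp
  have hPkσ : P ^ ((k : ℝ) + σ / 4) = P ^ (k : ℝ) * P ^ (σ / 4) := Real.rpow_add hP0 _ _
  have t1 : (#(bx aA (2 ^ l)) : ℝ) * (#Y * ((3 * (a0 * P)) * Real.exp (-(Real.pi * P ^ (σ / 4))))) ≤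
      c0 / 4 * (#Y * w * P) := by
    rw [hXA]
    rw [hPkσ] at g4
    have h1 : 3 * K * a0 * (P ^ (k : ℝ) * Real.exp (-(Real.pi * P ^ (σ / 4)))) ≤ c0 / 4 * w := by
      have h2 : 3 * K * a0 * (P ^ (k : ℝ) * Real.exp (-(Real.pi * P ^ (σ / 4)))) =
          (c0 / 4 * w) * (3 * K * a0 / (c0 / 4) *
            (P ^ (k : ℝ) * P ^ (σ / 4) * Real.exp (-(Real.pi * P ^ (σ / 4))))) := by
        have h3 : (c0 / 4 * w) * (3 * K * a0 / (c0 / 4) *
            (P ^ (k : ℝ) * P ^ (σ / 4) * Real.exp (-(Real.pi * P ^ (σ / 4))))) =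
            3 * K * a0 * (P ^ (k : ℝ) * Real.exp (-(Real.pi * P ^ (σ / 4)))) *
              (w * P ^ (σ / 4)) := by
          field_simp
        rw [h3, hwP, mul_one]
      rw [h2]
      exact mul_le_of_le_one_right (by positivity) g4
    calc K * P ^ (k : ℝ) * (#Y * ((3 * (a0 * P)) * Real.exp (-(Real.pi * P ^ (σ / 4)))))
        = (#Y * P) * (3 * K * a0 * (P ^ (k : ℝ) * Real.exp (-(Real.pi * P ^ (σ / 4))))) := by ring
      _ ≤ (#Y * P) * (c0 / 4 * w) := mul_le_mul_of_nonneg_left h1 (by positivity)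
      _ = _ := by ring
  have t2 : 12 * ((#(bx aA (2 ^ l)) : ℝ) * #Y * (a0 * ((2 ^ l : ℕ) : ℝ))) *
      Real.exp (-(Real.pi * w ^ 2 * (P ^ σ) ^ 2 / 2)) ≤ c0 / 4 * (#Y * w * P) := by
    rw [hXA, hcast]
    have hexp : Real.pi * w ^ 2 * (P ^ σ) ^ 2 / 2 = Real.pi / 2 * P ^ (3 * σ / 2) := by
      have h3 : w ^ 2 * (P ^ σ) ^ 2 = P ^ (3 * σ / 2) := by
        rw [← mul_pow, hw, ← Real.rpow_add hP0, ← Real.rpow_natCast, ← Real.rpow_mul hP0.le]
        congr 1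
        push_cast
        ring
      calc Real.pi * w ^ 2 * (P ^ σ) ^ 2 / 2 = Real.pi / 2 * (w ^ 2 * (P ^ σ) ^ 2) := by ring
        _ = _ := by rw [h3]
    rw [hexp]
    rw [hPkσ] at g5
    have h1 : 12 * K * a0 * (P ^ (k : ℝ) * Real.exp (-(Real.pi / 2 * P ^ (3 * σ / 2)))) ≤
        c0 / 4 * w := by
      have h2 : 12 * K * a0 * (P ^ (k : ℝ) * Real.exp (-(Real.pi / 2 * P ^ (3 * σ / 2)))) =
          (c0 / 4 * w) * (12 * K * a0 / (c0 / 4) *
            (P ^ (k : ℝ) * P ^ (σ / 4) * Real.exp (-(Real.pi / 2 * P ^ (3 * σ / 2))))) := by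
        have h3 : (c0 / 4 * w) * (12 * K * a0 / (c0 / 4) *
            (P ^ (k : ℝ) * P ^ (σ / 4) * Real.exp (-(Real.pi / 2 * P ^ (3 * σ / 2))))) =
            12 * K * a0 * (P ^ (k : ℝ) * Real.exp (-(Real.pi / 2 * P ^ (3 * σ / 2)))) *
              (w * P ^ (σ / 4)) := by
          field_simp
        rw [h3, hwP, mul_one]
      rw [h2]
      exact mul_le_of_le_one_right (by positivity) g5
    calc 12 * (K * P ^ (k : ℝ) * #Y * (a0 * P)) * Real.exp (-(Real.pi / 2 * P ^ (3 * σ / 2)))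
        = (#Y * P) * (12 * K * a0 * (P ^ (k : ℝ) * Real.exp (-(Real.pi / 2 * P ^ (3 * σ / 2))))) := by
          ring
      _ ≤ (#Y * P) * (c0 / 4 * w) := mul_le_mul_of_nonneg_left h1 (by positivity)
      _ = _ := by ring
  have hfin : c0 / 2 * (#Y * w * P) ≤
      P ^ (1 - σ) * Real.sqrt (P ^ ((k : ℝ) + σ / 4) * (4 * #Y)) := by
    nlinarith
  -- squares
  have hsq : (c0 / 2 * (#Y * w * P)) ^ 2 ≤
      (P ^ (1 - σ)) ^ 2 * (P ^ ((k : ℝ) + σ / 4) * (4 * #Y)) := by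
    have h1 := pow_le_pow_left₀ (by positivity) hfin 2
    rw [mul_pow (P ^ (1 - σ)), Real.sq_sqrt (by positivity)] at h1
    exact h1
  have hq : (#Y : ℝ) * (c0 ^ 2 / 16 * (w ^ 2 * P ^ 2)) ≤ (P ^ (1 - σ)) ^ 2 * P ^ ((k : ℝ) + σ / 4) := by
    have h1 : (4 * (#Y : ℝ)) * (#Y * (c0 ^ 2 / 16 * (w ^ 2 * P ^ 2))) ≤
        (4 * (#Y : ℝ)) * ((P ^ (1 - σ)) ^ 2 * P ^ ((k : ℝ) + σ / 4)) := by
      nlinarith
    exact le_of_mul_le_mul_left h1 (by positivity)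
  have hpow : (P ^ (1 - σ)) ^ 2 * P ^ ((k : ℝ) + σ / 4) =
      P ^ ((k : ℝ) - 5 * σ / 4) * (w ^ 2 * P ^ 2) := by
    rw [hw]
    simp only [← Real.rpow_natCast]
    rw [← Real.rpow_mul hP0.le, ← Real.rpow_mul hP0.le, ← Real.rpow_add hP0, ← Real.rpow_add hP0,
      ← Real.rpow_add hP0]
    congr 1
    push_cast
    ring
  rw [hpow] at hq
  have hq2 : (#Y : ℝ) * (c0 ^ 2 / 16) ≤ P ^ ((k : ℝ) - 5 * σ / 4) := by
    have h1 : 0 < w ^ 2 * P ^ 2 := by positivity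
    have h2 : ((#Y : ℝ) * (c0 ^ 2 / 16)) * (w ^ 2 * P ^ 2) ≤
        P ^ ((k : ℝ) - 5 * σ / 4) * (w ^ 2 * P ^ 2) := by linarith
    exact le_of_mul_le_mul_right h2 h1
  have hq3 : (#Y : ℝ) ≤ 16 / c0 ^ 2 * P ^ ((k : ℝ) - 5 * σ / 4) := by
    rw [div_mul_eq_mul_div, le_div_iff₀ (by positivity)]
    linarith
  refine hq3.trans ?_
  have h1 : P ^ ((k : ℝ) - σ) = P ^ (σ / 4) * P ^ ((k : ℝ) - 5 * σ / 4) := by
    rw [← Real.rpow_add hP0]
    congr 1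
    ring
  rw [h1]
  exact mul_le_mul_of_nonneg_right g6 (by positivity)

end Pool.Agent.L7h22.WA
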