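import Pool.Agent.L7h67.WA.Stm

/-! [WA-DIO] of project WA (helper67): almost all reals are Diophantine. -/

set_option autoImplicit false

namespace Pool.Agent.L7h22.WA

open Finset MeasureTheory Polynomial Filter
open Pool.Agent.L7h67.WA

theorem s_DIO : S_DIO := by
  have hirr : ∀ᵐ x : ℝ, Irrational x := (Set.countable_range ((↑) : ℚ → ℝ)).ae_notMem volume
  filter_upwards [ae_not_liouvilleWith, hirr] with x hx hi
  have h3 := hx 3 (by norm_num)
  unfold LiouvilleWith at h3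
  push Not at h3
  have h4 := h3 1
  rw [eventually_atTop] at h4
  obtain ⟨N, hN⟩ := h4
  -- no rational number is equal to x
  have hne : ∀ m : ℕ, 1 ≤ m → ∀ a : ℤ, (m : ℝ) * x - a ≠ 0 := by
    intro m hm a h
    have hm0 : (m : ℝ) ≠ 0 := by positivity
    apply hi
    refine ⟨(a : ℚ) / m, ?_⟩
    push_cast
    rw [div_eq_iff hm0]
    linarith
  -- small denominators
  have hsmall : ∀ m : ℕ, 1 ≤ m → ∃ c : ℝ, 0 < c ∧ ∀ a : ℤ, c ≤ |(m : ℝ) * x - a| := by
    intro m hm
    refine ⟨|(m : ℝ) * x - round ((m : ℝ) * x)|, abs_pos.2 (hne m hm _), fun a => ?_⟩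
    exact round_le _ a
  choose! c0 hc0 using hsmall
  have hfin : ∀ n : ℕ, ∃ c : ℝ, 0 < c ∧ ∀ m : ℕ, 1 ≤ m → m < n → ∀ a : ℤ, c ≤ |(m : ℝ) * x - a| := by
    intro n
    induction n with
    | zero => exact ⟨1, one_pos, fun m _ h => absurd h (by omega)⟩
    | succ n ih =>
      obtain ⟨c, hc1, hc2⟩ := ih
      rcases Nat.eq_zero_or_pos n with h0 | h0
      · exact ⟨1, one_pos, fun m h1 h => absurd h (by omega)⟩
      · refine ⟨min c (c0 n), lt_min hc1 (hc0 n h0).1, ?_⟩
        intro m hm1 hm2 a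
        rcases Nat.lt_succ_iff_lt_or_eq.1 hm2 with h | h
        · exact (min_le_left _ _).trans (hc2 m hm1 h a)
        · rw [h]
          exact (min_le_right _ _).trans ((hc0 n h0).2 a)
  obtain ⟨c, hc1, hc2⟩ := hfin N
  refine ⟨min c 1, lt_min hc1 one_pos, ?_⟩
  intro m hm a
  have hm1 : (1 : ℝ) ≤ m := by exact_mod_cast hm
  have hm0 : (0 : ℝ) < m := by linarith
  rcases lt_or_ge m N with h | h
  · have h5 := hc2 m hm h a
    refine le_trans ?_ h5
    rw [div_le_iff₀ (by positivity)]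
    have h6 : (1 : ℝ) ≤ (m : ℝ) ^ 2 := one_le_pow₀ hm1
    have h7 : min c 1 ≤ c := min_le_left _ _
    nlinarith
  · have h5 := hN m h a (by
      intro h6
      apply hne m hm a
      rw [h6]
      field_simp
      ring)
    have h6 : |(m : ℝ) * x - a| = m * |x - a / m| := by
      rw [← abs_of_pos hm0, ← abs_mul, abs_of_pos hm0]
      congr 1
      field_simp
    rw [h6]
    have h7 : (1 : ℝ) / (m : ℝ) ^ (3 : ℝ) = 1 / (m : ℝ) ^ 3 := by
      norm_cast
    rw [h7] at h5
    calc min c 1 / (m : ℝ) ^ 2 ≤ 1 / (m : ℝ) ^ 2 :=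
          div_le_div_of_nonneg_right (min_le_right _ _) (by positivity)
      _ = m * (1 / (m : ℝ) ^ 3) := by field_simp
      _ ≤ _ := mul_le_mul_of_nonneg_left h5 hm0.le

end Pool.Agent.L7h22.WA
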