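import Pool.Agent.L7h22.WA.Blk

/-! [WA-FIN2] of project WA (helper67): almost all integers. -/

set_option autoImplicit false

namespace Pool.Agent.L7h22.WA

open Finset MeasureTheory Polynomial Filter Topology
open Pool.Agent.L7h67.WA

theorem VV_tendsto {k : ℕ} (FA : Fin k → ℝ[X]) (F0 : ℝ[X]) (aA : Fin k → ℕ) (a0 : ℕ)
    (hFA : ∀ i, (FA i).natDegree = k) (hF0 : F0.natDegree = k)
    (haA : ∀ i, 1 ≤ aA i) (ha0 : 1 ≤ a0) :
    Tendsto (fun s : ℝ => VV FA F0 aA a0 s / s ^ k) atTop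
      (𝓝 (∑ i, (FA i).leadingCoeff * (aA i : ℝ) ^ k + F0.leadingCoeff * (a0 : ℝ) ^ k)) := by
  have hone : ∀ (G : ℝ[X]) (a : ℕ), G.natDegree = k → 1 ≤ a →
      Tendsto (fun s : ℝ => G.eval (s * (a : ℝ)) / s ^ k) atTop
        (𝓝 (G.leadingCoeff * (a : ℝ) ^ k)) := by
    intro G a hG ha
    have ha' : (0 : ℝ) < a := by exact_mod_cast ha
    have h1 := pol_tendsto G k hG.le
    have h2 : G.coeff k = G.leadingCoeff := by rw [← hG]; rfl
    rw [h2] at h1
    have h3 : Tendsto (fun s : ℝ => s * (a : ℝ)) atTop atTop :=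
      tendsto_id.atTop_mul_const ha'
    have h4 := (h1.comp h3).mul_const ((a : ℝ) ^ k)
    refine h4.congr' ?_
    filter_upwards [eventually_gt_atTop 0] with s hs
    simp only [Function.comp_apply]
    rw [mul_pow]
    field_simp
  have h1 : (fun s : ℝ => VV FA F0 aA a0 s / s ^ k) = fun s => ∑ i, (FA i).eval (s * (aA i : ℝ)) / s ^ k +
      F0.eval (s * (a0 : ℝ)) / s ^ k := by
    funext s
    unfold VV
    rw [add_div, Finset.sum_div]
  rw [h1]
  apply Tendsto.add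
  · apply tendsto_finsetSum
    intro i _
    exact hone (FA i) (aA i) (hFA i) (haA i)
  · exact hone F0 a0 hF0 ha0

/-- the final comparison -/
theorem compare (C1 C2 C3 θ : ℝ) (hC2 : 0 ≤ C2) (hC3 : 0 < C3) (hθ : 0 < θ) (hθ1 : θ ≤ 1) :
    ∀ᶠ N : ℝ in atTop, C1 + C2 * N ^ (1 / 2 : ℝ) + (2 * Real.log (C3 * N) + 1) * (C3 * N) ^ (1 - θ) ≤
      N ^ (1 - θ / 16) := by
  have e1 : ∀ᶠ N : ℝ in atTop, 4 * C1 ≤ N ^ (1 - θ / 16) :=
    (tendsto_rpow_atTop (by linarith)).eventually_ge_atTop _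
  have e2 : ∀ᶠ N : ℝ in atTop, 4 * C2 ≤ N ^ (1 / 2 - θ / 16) :=
    (tendsto_rpow_atTop (by linarith)).eventually_ge_atTop _
  have e3 : ∀ᶠ N : ℝ in atTop, 8 / θ + 1 ≤ (C3 * N) ^ (θ / 4) :=
    ((tendsto_rpow_atTop (by positivity)).comp (tendsto_id.const_mul_atTop hC3)).eventually_ge_atTop _
  have e4 : ∀ᶠ N : ℝ in atTop, 2 * C3 ^ (1 - θ / 2) ≤ N ^ (θ / 2 - θ / 16) :=
    (tendsto_rpow_atTop (by linarith)).eventually_ge_atTop _
  filter_upwards [e1, e2, e3, e4, eventually_gt_atTop 0] with N h1 h2 h3 h4 hN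
  have hy : 0 < C3 * N := by positivity
  set y := C3 * N with hydef
  have h5 : 2 * Real.log y + 1 ≤ y ^ (θ / 2) := by
    have h6 := Real.log_le_rpow_div hy.le (show 0 < θ / 4 by positivity)
    set t := y ^ (θ / 4) with ht
    have h7 : y ^ (θ / 2) = t * t := by
      rw [ht, ← Real.rpow_add hy]
      congr 1
      ring
    rw [h7]
    have h8 : 2 * (t / (θ / 4)) = 8 / θ * t := by
      field_simp
      ring
    have h9 : 0 < 8 / θ := by positivity
    have h10 : 1 ≤ t := by linarith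
    nlinarith
  have h6 : (2 * Real.log y + 1) * y ^ (1 - θ) ≤ 1 / 2 * N ^ (1 - θ / 16) := by
    calc (2 * Real.log y + 1) * y ^ (1 - θ) ≤ y ^ (θ / 2) * y ^ (1 - θ) :=
          mul_le_mul_of_nonneg_right h5 (by positivity)
      _ = y ^ (1 - θ / 2) := by
          rw [← Real.rpow_add hy]
          congr 1
          ring
      _ = C3 ^ (1 - θ / 2) * N ^ (1 - θ / 2) := by rw [hydef, Real.mul_rpow hC3.le hN.le]
      _ ≤ (1 / 2 * N ^ (θ / 2 - θ / 16)) * N ^ (1 - θ / 2) :=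
          mul_le_mul_of_nonneg_right (by linarith) (by positivity)
      _ = 1 / 2 * (N ^ (θ / 2 - θ / 16) * N ^ (1 - θ / 2)) := by ring
      _ = 1 / 2 * N ^ (1 - θ / 16) := by
          rw [← Real.rpow_add hN]
          congr 2
          ring
  have h7 : C2 * N ^ (1 / 2 : ℝ) ≤ 1 / 4 * N ^ (1 - θ / 16) := by
    calc C2 * N ^ (1 / 2 : ℝ) ≤ (1 / 4 * N ^ (1 / 2 - θ / 16)) * N ^ (1 / 2 : ℝ) :=
          mul_le_mul_of_nonneg_right (by linarith) (by positivity)
      _ = 1 / 4 * (N ^ (1 / 2 - θ / 16) * N ^ (1 / 2 : ℝ)) := by ring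
      _ = _ := by
          rw [← Real.rpow_add hN]
          congr 2
          ring
  linarith

/-- [WA-FIN2] -/
theorem s_FIN2 (hcore : S_CORE) (hsup : S_SUP) : S_FIN2 := by
  classical
  intro k hk
  obtain ⟨σ, hσ, hσ1, hS⟩ := hsup k hk
  have hk0 : (0 : ℝ) < k := by exact_mod_cast (by omega : 0 < k)
  have hk1 : (2 : ℝ) ≤ k := by exact_mod_cast hk
  set θ : ℝ := σ / k with hθ
  have hθ0 : 0 < θ := by positivity
  have hθ1 : θ ≤ 1 := by
    rw [hθ, div_le_one hk0]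
    linarith
  refine ⟨θ / 16, by positivity, ?_⟩
  intro FA F0 aA a0 hFA hF0 hl0 haA ha0 hMV hDio M ρ hρ κ
  have hblk := block hcore k hk σ hσ hσ1 FA F0 aA a0 hFA hF0 hl0 haA ha0 hMV
    (hS F0 hF0 hl0 hDio a0 ha0) M ρ hρ κ
  -- growth of the values
  set v : ℝ := ∑ i, (FA i).leadingCoeff * (aA i : ℝ) ^ k + F0.leadingCoeff * (a0 : ℝ) ^ k with hv
  have hv0 : 0 < v := by
    have h1 : 0 ≤ ∑ i, (FA i).leadingCoeff * (aA i : ℝ) ^ k :=
      Finset.sum_nonneg fun i _ => by have := (hFA i).2; positivity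
    have h2 : 0 < F0.leadingCoeff * (a0 : ℝ) ^ k := by
      have : (0 : ℝ) < a0 := by exact_mod_cast ha0
      positivity
    linarith
  have hVt := VV_tendsto FA F0 aA a0 (fun i => (hFA i).1) hF0 haA ha0
  rw [← hv] at hVt
  have hVe := hVt.eventually (Ioo_mem_nhds (show v / 2 < v by linarith) (show v < 2 * v by linarith))
  obtain ⟨s0, hs0⟩ := eventually_atTop.1 hVe
  have hgrow : ∀ s : ℝ, max s0 1 ≤ s → v / 2 * s ^ k ≤ VV FA F0 aA a0 s ∧
      VV FA F0 aA a0 s ≤ 2 * v * s ^ k := by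
    intro s hs
    have h1 : 0 < s := by
      have := (le_max_right s0 1).trans hs
      linarith
    obtain ⟨h2, h3⟩ := hs0 s ((le_max_left _ _).trans hs)
    rw [lt_div_iff₀ (pow_pos h1 k)] at h2
    rw [div_lt_iff₀ (pow_pos h1 k)] at h3
    exact ⟨h2.le, h3.le⟩
  have hP : Tendsto (fun l : ℕ => (2 : ℝ) ^ l) atTop atTop :=
    tendsto_pow_atTop_atTop_of_one_lt one_lt_two
  obtain ⟨l0, hl0'⟩ := eventually_atTop.1 (hblk.and (hP.eventually_ge_atTop (max s0 1)))
  have hgr : ∀ l, l0 ≤ l → v / 2 * ((2 : ℝ) ^ l) ^ k ≤ VV FA F0 aA a0 (3 / 2 * (2 : ℝ) ^ l) ∧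
      VV FA F0 aA a0 (3 / 2 * (2 : ℝ) ^ l) ≤ 2 * v * (3 / 2) ^ k * ((2 : ℝ) ^ l) ^ k := by
    intro l hl
    have h1 := (hl0' l hl).2
    have h2 : max s0 1 ≤ 3 / 2 * (2 : ℝ) ^ l := by
      have : (0 : ℝ) < 2 ^ l := by positivity
      linarith
    obtain ⟨h3, h4⟩ := hgrow _ h2
    constructor
    · refine le_trans ?_ h3
      apply mul_le_mul_of_nonneg_left _ (by positivity)
      apply pow_le_pow_left₀ (by positivity)
      have : (0 : ℝ) < 2 ^ l := by positivity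
      linarith
    · rw [mul_pow] at h4
      linarith
  -- constants
  set C3 : ℝ := (1 + |κ|) / (v / 2) + 1 with hC3
  have hC30 : 0 < C3 := by positivity
  set C2 : ℝ := 2 * v * (3 / 2) ^ k * 2 ^ k with hC2
  have hC20 : 0 ≤ C2 := by positivity
  have hcmp := (compare (|κ| + 1) C2 C3 θ hC20 hC30 hθ0 hθ1)
  have hcast : Tendsto (fun N : ℕ => (N : ℝ)) atTop atTop := tendsto_natCast_atTop_atTop
  filter_upwards [hcast.eventually hcmp, eventually_gt_atTop ((2 ^ l0) ^ (2 * k)),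
    eventually_ge_atTop 1] with N hN1 hN2 hN3 Z hZ1 hZ2
  have hN1' : (1 : ℝ) ≤ N := by exact_mod_cast hN3
  have hN0 : (0 : ℝ) < N := by linarith
  -- the first scale
  have hex : ∃ l, N ≤ (2 ^ l) ^ (2 * k) := by
    refine ⟨N, ?_⟩
    have h1 : N ≤ 2 ^ N := Nat.lt_two_pow_self.le
    exact h1.trans (Nat.le_self_pow (by omega) _)
  set l1 := Nat.find hex with hl1
  have hl1a : N ≤ (2 ^ l1) ^ (2 * k) := Nat.find_spec hex
  have hl1b : l0 < l1 := by
    by_contra hcon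
    push Not at hcon
    have h1 : (2 ^ l1) ^ (2 * k) ≤ (2 ^ l0) ^ (2 * k) :=
      Nat.pow_le_pow_left (Nat.pow_le_pow_right (by norm_num) hcon) _
    omega
  have hl1c : (2 ^ (l1 - 1)) ^ (2 * k) < N := by
    have h1 := Nat.find_min hex (m := l1 - 1) (by omega)
    omega
  have hPl1 : ((2 : ℝ) ^ l1) ^ k ≤ 2 ^ k * (N : ℝ) ^ (1 / 2 : ℝ) := by
    have h1 : (2 : ℝ) ^ l1 = 2 * 2 ^ (l1 - 1) := by
      rw [← pow_succ']
      congr 1
      omega
    rw [h1, mul_pow]
    apply mul_le_mul_of_nonneg_left _ (by positivity)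
    have h2 : (((2 : ℝ) ^ (l1 - 1)) ^ k) ^ 2 ≤ N := by
      rw [← pow_mul, mul_comm k 2]
      exact_mod_cast hl1c.le
    rw [← Real.sqrt_eq_rpow]
    exact Real.le_sqrt_of_sq_le h2
  -- the blocks
  set L : ℕ := ⌊2 * Real.log (C3 * N)⌋₊ + 1 with hL
  set Y : ℕ → Finset ℕ := fun l => Z.filter (fun n => l1 ≤ l ∧
    VV FA F0 aA a0 (3 / 2 * (2 : ℝ) ^ l) ≤ n + κ ∧ (n : ℝ) + κ ≤ VV FA F0 aA a0 (3 * (2 : ℝ) ^ l))
    with hY
  -- members of a block
  have hmem : ∀ l n, n ∈ Z → l1 ≤ l → VV FA F0 aA a0 (3 / 2 * (2 : ℝ) ^ l) ≤ n + κ →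
      ((2 : ℝ) ^ l) ^ k ≤ C3 * N := by
    intro l n hn hl h1
    have h2 := (hgr l (by omega)).1
    have h3 : (n : ℝ) ≤ N := by exact_mod_cast hZ1 n hn
    have h4 : (n : ℝ) + κ ≤ (1 + |κ|) * N := by
      have := le_abs_self κ
      nlinarith [abs_nonneg κ]
    have h5 : v / 2 * ((2 : ℝ) ^ l) ^ k ≤ (1 + |κ|) * N := by linarith
    have h6 : ((2 : ℝ) ^ l) ^ k ≤ (1 + |κ|) / (v / 2) * N := by
      rw [div_mul_eq_mul_div, le_div_iff₀ (by positivity)]
      linarith
    rw [hC3]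
    linarith
  have hYb : ∀ l, (#(Y l) : ℝ) ≤ (C3 * N) ^ (1 - θ) := by
    intro l
    rcases (Y l).eq_empty_or_nonempty with he | ⟨n0, hn0⟩
    · rw [he, Finset.card_empty, Nat.cast_zero]
      positivity
    · rw [hY] at hn0
      simp only [mem_filter] at hn0
      obtain ⟨hn1, hn2, hn3, hn4⟩ := hn0
      have hpow := hmem l n0 hn1 hn2 hn3
      have hP0 : (0 : ℝ) < 2 ^ l := by positivity
      have hb := (hl0' l (by omega)).1 (Y l) (by
        intro n hn
        rw [hY] at hn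
        simp only [mem_filter] at hn
        exact hn.2.2) (by
        intro n hn x z hx hz
        rw [hY] at hn
        simp only [mem_filter] at hn
        refine le_trans ?_ (hZ2 n hn.1 x z hx hz)
        have h1 : (N : ℝ) ≤ ((2 : ℝ) ^ l) ^ (2 * k) := by
          have h2 : N ≤ (2 ^ l) ^ (2 * k) := hl1a.trans
            (Nat.pow_le_pow_left (Nat.pow_le_pow_right (by norm_num) hn2) _)
          exact_mod_cast h2
        calc ((2 : ℝ) ^ l) ^ (-(σ / 8)) = (((2 : ℝ) ^ l) ^ (2 * k)) ^ (-(θ / 16)) := by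
              rw [← Real.rpow_natCast ((2 : ℝ) ^ l) (2 * k), ← Real.rpow_mul hP0.le]
              congr 1
              rw [hθ]
              push_cast
              field_simp
              ring
          _ ≤ (N : ℝ) ^ (-(θ / 16)) :=
              Real.rpow_le_rpow_of_nonpos hN0 h1 (by linarith))
      refine hb.trans ?_
      calc ((2 : ℝ) ^ l) ^ ((k : ℝ) - σ) = (((2 : ℝ) ^ l) ^ k) ^ (1 - θ) := by
            rw [← Real.rpow_natCast ((2 : ℝ) ^ l) k, ← Real.rpow_mul hP0.le]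
            congr 1
            rw [hθ]
            field_simp
        _ ≤ (C3 * N) ^ (1 - θ) := Real.rpow_le_rpow (by positivity) hpow (by linarith)
  -- the small ones
  set W : Finset ℕ := Z.filter (fun n => (n : ℝ) + κ < VV FA F0 aA a0 (3 / 2 * (2 : ℝ) ^ l1)) with hW
  have hWb : (#W : ℝ) ≤ C2 * (N : ℝ) ^ (1 / 2 : ℝ) + |κ| + 1 := by
    have hX0 : 0 ≤ C2 * (N : ℝ) ^ (1 / 2 : ℝ) + |κ| := by positivity
    have h1 : W ⊆ range (⌊C2 * (N : ℝ) ^ (1 / 2 : ℝ) + |κ|⌋₊ + 1) := by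
      intro n hn
      rw [hW, mem_filter] at hn
      rw [mem_range, Nat.lt_succ_iff]
      apply Nat.le_floor
      have h2 := (hgr l1 hl1b.le).2
      have h3 : 2 * v * (3 / 2) ^ k * ((2 : ℝ) ^ l1) ^ k ≤ C2 * (N : ℝ) ^ (1 / 2 : ℝ) := by
        rw [hC2, mul_assoc (2 * v * (3 / 2) ^ k)]
        exact mul_le_mul_of_nonneg_left hPl1 (by positivity)
      have h4 := neg_abs_le κ
      linarith [hn.2]
    have h2 := Finset.card_le_card h1
    rw [Finset.card_range] at h2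
    have h3 : (#W : ℝ) ≤ (⌊C2 * (N : ℝ) ^ (1 / 2 : ℝ) + |κ|⌋₊ : ℝ) + 1 := by exact_mod_cast h2
    have h4 := Nat.floor_le hX0
    linarith
  -- the union
  have hVtop : Tendsto (fun l : ℕ => VV FA F0 aA a0 (3 / 2 * (2 : ℝ) ^ l)) atTop atTop := by
    apply tendsto_atTop_mono' atTop (f₁ := fun l : ℕ => v / 2 * ((2 : ℝ) ^ l) ^ k)
    · filter_upwards [eventually_ge_atTop l0] with l hl
      exact (hgr l hl).1
    · apply Tendsto.const_mul_atTop (by positivity)
      exact (tendsto_pow_atTop (by omega)).comp hP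
  have hcover : Z ⊆ W ∪ (range L).biUnion Y := by
    intro n hn
    rw [mem_union]
    by_cases hnW : (n : ℝ) + κ < VV FA F0 aA a0 (3 / 2 * (2 : ℝ) ^ l1)
    · left
      rw [hW, mem_filter]
      exact ⟨hn, hnW⟩
    · right
      push Not at hnW
      have hexl : ∃ l, l1 ≤ l ∧ (n : ℝ) + κ < VV FA F0 aA a0 (3 / 2 * (2 : ℝ) ^ (l + 1)) := by
        have h1 := (tendsto_add_atTop_nat 1)
        have h2 := (hVtop.comp h1).eventually (eventually_gt_atTop ((n : ℝ) + κ))
        obtain ⟨l, h3, h4⟩ := (h2.and (eventually_ge_atTop l1)).exists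
        exact ⟨l, h4, h3⟩
      set l := Nat.find hexl with hldef
      obtain ⟨ha, hb⟩ := Nat.find_spec hexl
      rw [← hldef] at ha hb
      have hc : VV FA F0 aA a0 (3 / 2 * (2 : ℝ) ^ l) ≤ n + κ := by
        rcases ha.eq_or_lt with h | h
        · rw [← h]
          exact hnW
        · have h1 := Nat.find_min hexl (m := l - 1) (by omega)
          push Not at h1
          have h2 := h1 (by omega)
          rw [show l - 1 + 1 = l by omega] at h2
          exact h2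
      have hd : (n : ℝ) + κ ≤ VV FA F0 aA a0 (3 * (2 : ℝ) ^ l) := by
        refine hb.le.trans (le_of_eq ?_)
        congr 1
        rw [pow_succ]
        ring
      rw [mem_biUnion]
      refine ⟨l, ?_, ?_⟩
      · rw [mem_range, hL, Nat.lt_succ_iff]
        apply Nat.le_floor
        have h1 := hmem l n hn ha hc
        have h2 : (2 : ℝ) ^ l ≤ ((2 : ℝ) ^ l) ^ k := by
          apply le_self_pow₀ (one_le_pow₀ (by norm_num)) (by omega)
        have h3 := Real.log_le_log (by positivity) (h2.trans h1)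
        rw [Real.log_pow] at h3
        have h4 : (1 / 2 : ℝ) ≤ Real.log 2 := by
          have := Real.log_two_gt_d9
          linarith
        have h5 : (l : ℝ) * (1 / 2) ≤ l * Real.log 2 :=
          mul_le_mul_of_nonneg_left h4 (Nat.cast_nonneg _)
        linarith
      · rw [hY]
        simp only [mem_filter]
        exact ⟨hn, ha, hc, hd⟩
  have hcard : (#Z : ℝ) ≤ #W + ∑ l ∈ range L, (#(Y l) : ℝ) := by
    have h1 := (Finset.card_le_card hcover).trans (Finset.card_union_le _ _)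
    have h2 := h1.trans (Nat.add_le_add_left Finset.card_biUnion_le _)
    exact_mod_cast h2
  have hsum : ∑ l ∈ range L, (#(Y l) : ℝ) ≤ L * (C3 * N) ^ (1 - θ) := by
    refine (Finset.sum_le_sum fun l _ => hYb l).trans (le_of_eq ?_)
    rw [Finset.sum_const, card_range, nsmul_eq_mul]
  have hLb : (L : ℝ) ≤ 2 * Real.log (C3 * N) + 1 := by
    rw [hL]
    push_cast
    have h1 : 1 ≤ C3 * N := by
      have : 1 ≤ C3 := by
        rw [hC3]
        have : 0 < (1 + |κ|) / (v / 2) := by positivity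
        linarith
      nlinarith
    have h2 : 0 ≤ 2 * Real.log (C3 * N) := by
      have := Real.log_nonneg h1
      linarith
    linarith [Nat.floor_le h2]
  have hfin : (L : ℝ) * (C3 * N) ^ (1 - θ) ≤ (2 * Real.log (C3 * N) + 1) * (C3 * N) ^ (1 - θ) :=
    mul_le_mul_of_nonneg_right hLb (by positivity)
  linarith

end Pool.Agent.L7h22.WA
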