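import Pool.Agent.L7h22.WA.Pol

/-! [WA-MAINT] of project WA (helper67): lower bound of the main term. -/

set_option autoImplicit false

namespace Pool.Agent.L7h22.WA

open Finset MeasureTheory Polynomial Filter Topology
open Pool.Agent.L7h67.WA

/-- mean value theorem for a polynomial -/
theorem mvt (F : ℝ[X]) (A B m M : ℝ)
    (h : ∀ u : ℝ, A ≤ u → u ≤ B → m ≤ (derivative F).eval u ∧ (derivative F).eval u ≤ M)
    (x y : ℝ) (hx : A ≤ x) (hxy : x ≤ y) (hy : y ≤ B) :
    m * (y - x) ≤ F.eval y - F.eval x ∧ F.eval y - F.eval x ≤ M * (y - x) := by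
  have hd : ∀ u : ℝ, deriv (fun u : ℝ => F.eval u) u = (derivative F).eval u := fun u =>
    (F.hasDerivAt u).deriv
  constructor
  · apply Convex.mul_sub_le_image_sub_of_le_deriv (convex_Icc A B) F.continuous.continuousOn
      F.differentiable.differentiableOn _ x ⟨hx, hxy.trans hy⟩ y ⟨hx.trans hxy, hy⟩ hxy
    intro u hu
    rw [hd]
    have := interior_subset hu
    exact (h u this.1 this.2).1
  · apply Convex.image_sub_le_mul_sub_of_deriv_le (convex_Icc A B) F.continuous.continuousOn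
      F.differentiable.differentiableOn _ x ⟨hx, hxy.trans hy⟩ y ⟨hx.trans hxy, hy⟩ hxy
    intro u hu
    rw [hd]
    have := interior_subset hu
    exact (h u this.1 this.2).2

theorem gs_cont (w : ℝ) : Continuous (gs w) := by
  unfold gs
  fun_prop

theorem gs_low {w t : ℝ} (hw : 0 < w) (ht : |t| ≤ w) : Real.exp (-Real.pi) ≤ gs w t := by
  unfold gs
  apply Real.exp_le_exp.2
  rw [neg_le_neg_iff, div_le_iff₀ (by positivity)]
  apply mul_le_mul_of_nonneg_left _ Real.pi_pos.le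
  rw [← sq_abs t]
  exact pow_le_pow_left₀ (abs_nonneg t) ht 2

theorem GI_nonneg (F0 : ℝ[X]) (a0 P : ℕ) (w τ : ℝ) : 0 ≤ GI F0 a0 P w τ := by
  unfold GI
  apply intervalIntegral.integral_nonneg
  · have : a0 * P ≤ 4 * (a0 * P) := by omega
    exact_mod_cast this
  · intro u _
    unfold gs
    positivity

/-- lower bound of one integral -/
theorem GI_low (F0 : ℝ[X]) (a0 P : ℕ) (w D : ℝ) (hw : 0 < w) (hD : 0 < D) (u0 : ℝ)
    (h1 : ((a0 * P : ℕ) : ℝ) ≤ u0) (h2 : u0 + w / D ≤ ((4 * (a0 * P) : ℕ) : ℝ))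
    (h3 : ∀ u : ℝ, ((a0 * P : ℕ) : ℝ) ≤ u → u ≤ ((4 * (a0 * P) : ℕ) : ℝ) →
      0 ≤ (derivative F0).eval u ∧ (derivative F0).eval u ≤ D) :
    Real.exp (-Real.pi) * (w / D) ≤ GI F0 a0 P w (F0.eval u0) := by
  have hwD : 0 < w / D := by positivity
  unfold GI
  have hc : Continuous (fun u : ℝ => gs w (F0.eval u - F0.eval u0)) :=
    (gs_cont w).comp (F0.continuous.sub continuous_const)
  have h4 : ∫ u in u0..(u0 + w / D), Real.exp (-Real.pi) ≤
      ∫ u in u0..(u0 + w / D), gs w (F0.eval u - F0.eval u0) := by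
    apply intervalIntegral.integral_mono_on (by linarith) (by simp) (hc.intervalIntegrable _ _)
    intro u hu
    apply gs_low hw
    obtain ⟨h5, h6⟩ := mvt F0 _ _ 0 D h3 u0 u h1 hu.1 (hu.2.trans h2)
    rw [abs_of_nonneg (by linarith)]
    refine h6.trans ?_
    have h7 : u - u0 ≤ w / D := by linarith [hu.2]
    calc D * (u - u0) ≤ D * (w / D) := mul_le_mul_of_nonneg_left h7 hD.le
      _ = w := by field_simp
  rw [intervalIntegral.integral_const] at h4
  have h5 : (u0 + w / D - u0) • Real.exp (-Real.pi) = Real.exp (-Real.pi) * (w / D) := by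
    rw [smul_eq_mul]
    ring
  rw [h5] at h4
  refine h4.trans ?_
  apply intervalIntegral.integral_mono_interval h1 (by linarith) h2
  · filter_upwards with u
    unfold gs
    positivity
  · exact hc.intervalIntegrable _ _

/-- [WA-MAINT] -/
theorem s_MAINT : S_MAINT := by
  intro ι _ _ k F F0 a a0 hk hF hF0 hl0 ha ha0
  choose c1 c2 U hc1 hc2 hU1 hU using fun i => growth k (F i) hk (hF i).1 (hF i).2
  obtain ⟨d1, d2, V, hd1, hd2, hV1, hV⟩ := growth k F0 hk hF0 hl0
  set n : ℕ := Fintype.card ι with hn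
  set Cs : ℝ := ∑ i, c2 i * (4 * (a i : ℝ)) ^ (k - 1) with hCs
  have hCs0 : 0 ≤ Cs := Finset.sum_nonneg fun i _ => by have := hc2 i; positivity
  set η : ℝ := min 1 (d1 / (8 * (Cs + 1))) with hη
  have hη0 : 0 < η := lt_min one_pos (by positivity)
  have hη1 : η ≤ 1 := min_le_left _ _
  have hηC : Cs * η ≤ d1 / 8 := by
    have h1 : η ≤ d1 / (8 * (Cs + 1)) := min_le_right _ _
    rw [le_div_iff₀ (by positivity)] at h1
    nlinarith
  set D0 : ℝ := d2 * (4 * (a0 : ℝ)) ^ (k - 1) + 4 with hD0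
  have ha0' : (1 : ℝ) ≤ a0 := by exact_mod_cast ha0
  have hD00 : 0 < D0 := by positivity
  refine ⟨Real.exp (-Real.pi) / D0 * (η / 4) ^ n, by positivity, ?_⟩
  have hev : ∀ᶠ P : ℕ in atTop, (∀ i, U i ≤ P) ∧ V ≤ P ∧ (8 * n / d1 ≤ (P : ℝ)) ∧
      4 / η ≤ (P : ℝ) ∧ 1 ≤ P := by
    have hcast : Tendsto (fun P : ℕ => (P : ℝ)) atTop atTop := tendsto_natCast_atTop_atTop
    refine ((eventually_all.2 fun i => hcast.eventually_ge_atTop (U i))).and
      ((hcast.eventually_ge_atTop V).and ((hcast.eventually_ge_atTop _).and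
        ((hcast.eventually_ge_atTop _).and (eventually_ge_atTop 1))))
  filter_upwards [hev] with P hP w hw hw1 τ hτ1 hτ2 ρ hρ
  obtain ⟨hPU, hPV, hPn, hPη, hP1⟩ := hP
  have hP1' : (1 : ℝ) ≤ P := by exact_mod_cast hP1
  have hP0 : (0 : ℝ) < P := by linarith
  have hPp : (0 : ℝ) < (P : ℝ) ^ (k - 1) := pow_pos hP0 _
  have hPp1 : (1 : ℝ) ≤ (P : ℝ) ^ (k - 1) := one_le_pow₀ hP1'
  have hPk : (P : ℝ) ^ k = P ^ (k - 1) * P := by
    rw [← pow_succ]
    congr 1
    omega
  -- derivatives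
  have hdF : ∀ i, ∀ u : ℝ, (P : ℝ) ≤ u → u ≤ 4 * ((a i : ℝ) * P) →
      0 ≤ (derivative (F i)).eval u ∧
      (derivative (F i)).eval u ≤ c2 i * (4 * (a i : ℝ)) ^ (k - 1) * P ^ (k - 1) := by
    intro i u hu1 hu2
    obtain ⟨h3, h4, _⟩ := hU i u (by linarith [hPU i])
    have hu0 : 0 < u := by linarith
    refine ⟨le_trans (by have := hc1 i; positivity) h3, h4.trans ?_⟩
    rw [mul_assoc]
    apply mul_le_mul_of_nonneg_left _ (hc2 i).le
    rw [← mul_pow]
    apply pow_le_pow_left₀ hu0.le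
    linarith
  have hdF0 : ∀ u : ℝ, (P : ℝ) ≤ u → u ≤ 4 * ((a0 : ℝ) * P) →
      d1 * P ^ (k - 1) ≤ (derivative F0).eval u ∧
      (derivative F0).eval u ≤ D0 * P ^ (k - 1) := by
    intro u hu1 hu2
    obtain ⟨h3, h4, _⟩ := hV u (by linarith)
    have hu0 : 0 < u := by linarith
    refine ⟨le_trans (mul_le_mul_of_nonneg_left (pow_le_pow_left₀ hP0.le hu1 _) hd1.le) h3,
      h4.trans ?_⟩
    have h5 : d2 * u ^ (k - 1) ≤ d2 * (4 * (a0 : ℝ)) ^ (k - 1) * P ^ (k - 1) := by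
      rw [mul_assoc]
      apply mul_le_mul_of_nonneg_left _ hd2.le
      rw [← mul_pow]
      apply pow_le_pow_left₀ hu0.le
      linarith
    refine h5.trans ?_
    apply mul_le_mul_of_nonneg_right _ hPp.le
    rw [hD0]
    linarith
  -- the parameter
  obtain ⟨t, ⟨ht1, ht2⟩, ht3⟩ : ∃ t ∈ Set.Icc (3 / 2 : ℝ) 3,
      ∑ i, (F i).eval (t * ((a i : ℝ) * P)) + F0.eval (t * ((a0 : ℝ) * P)) = τ := by
    have hcont : ContinuousOn (fun t : ℝ => ∑ i, (F i).eval (t * ((a i : ℝ) * P)) +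
        F0.eval (t * ((a0 : ℝ) * P))) (Set.Icc (3 / 2) 3) := by
      apply Continuous.continuousOn
      apply Continuous.add
      · apply continuous_finsetSum
        intro i _
        exact (F i).continuous.comp (by fun_prop)
      · exact F0.continuous.comp (by fun_prop)
    exact intermediate_value_Icc (by norm_num) hcont ⟨hτ1, hτ2⟩
  -- the small box
  set N : ι → ℕ := fun i => ⌈t * ((a i : ℝ) * P)⌉₊ with hN
  set m : ℕ := ⌊η * P / 2⌋₊ with hm
  have hm1 : η / 4 * P ≤ m := by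
    have h1 : η * P / 2 < m + 1 := Nat.lt_floor_add_one _
    have h2 : 4 ≤ η * P := by
      rw [div_le_iff₀ hη0] at hPη
      linarith
    linarith
  have hm2 : (m : ℝ) ≤ η * P / 2 := Nat.floor_le (by positivity)
  set B : Finset (ι → ℕ) := Fintype.piFinset fun i => Ioc (N i) (N i + m) with hB
  have hBx : ∀ x ∈ B, ∀ i, t * ((a i : ℝ) * P) ≤ (x i : ℝ) ∧ (x i : ℝ) ≤ t * ((a i : ℝ) * P) + η * P := by
    intro x hx i
    rw [hB, Fintype.mem_piFinset] at hx
    have h1 := hx i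
    rw [Finset.mem_Ioc] at h1
    have h2 : (0 : ℝ) ≤ t * ((a i : ℝ) * P) := by positivity
    have h3 : t * ((a i : ℝ) * P) ≤ N i := Nat.le_ceil _
    have h4 : (N i : ℝ) < t * ((a i : ℝ) * P) + 1 := Nat.ceil_lt_add_one h2
    have h5 : (N i : ℝ) ≤ x i := by exact_mod_cast h1.1.le
    have h6 : (x i : ℝ) ≤ N i + m := by exact_mod_cast h1.2
    have h7 : 4 ≤ η * P := by
      rw [div_le_iff₀ hη0] at hPη
      linarith
    exact ⟨by linarith, by linarith⟩
  have hai : ∀ i, (1 : ℝ) ≤ a i := fun i => by exact_mod_cast ha i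
  have hBsub : B ⊆ bx a P := by
    intro x hx
    unfold bx
    rw [Fintype.mem_piFinset]
    intro i
    obtain ⟨h1, h2⟩ := hBx x hx i
    rw [Finset.mem_Ioc]
    have h3 := hai i
    have h4 : (0 : ℝ) < (a i : ℝ) * P := by positivity
    constructor
    · have h5 : ((a i * P : ℕ) : ℝ) < x i := by
        push_cast
        nlinarith
      exact_mod_cast h5
    · have h5 : (x i : ℝ) ≤ ((4 * (a i * P) : ℕ) : ℝ) := by
        push_cast
        nlinarith
      exact_mod_cast h5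
  have hBcard : (#B : ℝ) = (m : ℝ) ^ n := by
    rw [hB, Fintype.card_piFinset]
    simp only [Nat.card_Ioc, Nat.add_sub_cancel_left, Finset.prod_const, Finset.card_univ]
    push_cast
    rfl
  -- one term
  have hterm : ∀ x ∈ B, Real.exp (-Real.pi) * (w / (D0 * P ^ (k - 1))) ≤
      GI F0 a0 P w (τ - ∑ i, ρ ((F i).eval (x i : ℝ))) := by
    intro x hx
    have haP0 : (P : ℝ) ≤ (a0 : ℝ) * P := by nlinarith
    -- the difference
    have hdiff : |(τ - ∑ i, ρ ((F i).eval (x i : ℝ))) - F0.eval (t * ((a0 : ℝ) * P))| ≤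
        d1 / 4 * (P : ℝ) ^ k := by
      have h1 : (τ - ∑ i, ρ ((F i).eval (x i : ℝ))) - F0.eval (t * ((a0 : ℝ) * P)) =
          ∑ i, ((F i).eval (t * ((a i : ℝ) * P)) - ρ ((F i).eval (x i : ℝ))) := by
        rw [Finset.sum_sub_distrib, ← ht3]
        ring
      rw [h1]
      have h2 : ∀ i ∈ (univ : Finset ι), |(F i).eval (t * ((a i : ℝ) * P)) - ρ ((F i).eval (x i : ℝ))| ≤
          c2 i * (4 * (a i : ℝ)) ^ (k - 1) * (η * P ^ k) + 1 := by
        intro i _
        obtain ⟨h3, h4⟩ := hBx x hx i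
        have h5 := hai i
        have h6 : (0 : ℝ) < (a i : ℝ) * P := by positivity
        obtain ⟨h7, h8⟩ := mvt (F i) P (4 * ((a i : ℝ) * P)) 0 _ (hdF i)
          (t * ((a i : ℝ) * P)) (x i) (by nlinarith) h3 (by nlinarith)
        have h9 := abs_le.1 (hρ ((F i).eval (x i : ℝ)))
        have h10 : c2 i * (4 * (a i : ℝ)) ^ (k - 1) * P ^ (k - 1) * ((x i : ℝ) - t * ((a i : ℝ) * P)) ≤
            c2 i * (4 * (a i : ℝ)) ^ (k - 1) * (η * P ^ k) := by
          rw [hPk]
          have h11 : 0 ≤ c2 i * (4 * (a i : ℝ)) ^ (k - 1) * P ^ (k - 1) := by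
            have := hc2 i
            positivity
          calc c2 i * (4 * (a i : ℝ)) ^ (k - 1) * P ^ (k - 1) * ((x i : ℝ) - t * ((a i : ℝ) * P))
              ≤ c2 i * (4 * (a i : ℝ)) ^ (k - 1) * P ^ (k - 1) * (η * P) :=
                mul_le_mul_of_nonneg_left (by linarith) h11
            _ = _ := by ring
        rw [abs_le]
        constructor
        · linarith [h9.2]
        · have h12 : 0 ≤ c2 i * (4 * (a i : ℝ)) ^ (k - 1) * (η * P ^ k) := by
            have := hc2 i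
            positivity
          linarith [h9.1]
      refine (Finset.abs_sum_le_sum_abs _ _).trans ((Finset.sum_le_sum h2).trans ?_)
      rw [Finset.sum_add_distrib, ← Finset.sum_mul, ← hCs, Finset.sum_const, Finset.card_univ,
        nsmul_eq_mul, mul_one, ← hn]
      have h3 : Cs * (η * (P : ℝ) ^ k) ≤ d1 / 8 * (P : ℝ) ^ k := by
        rw [← mul_assoc]
        exact mul_le_mul_of_nonneg_right hηC (by positivity)
      have h4 : (n : ℝ) ≤ d1 / 8 * (P : ℝ) ^ k := by
        rw [div_le_iff₀ hd1] at hPn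
        have h5 : (P : ℝ) ≤ (P : ℝ) ^ k := by
          rw [hPk]
          nlinarith
        nlinarith
      linarith
    -- the solution
    obtain ⟨hd3, hd4⟩ := abs_le.1 hdiff
    have hup := (mvt F0 P (4 * ((a0 : ℝ) * P)) _ _ hdF0 (t * ((a0 : ℝ) * P))
      ((t + 1 / 4) * ((a0 : ℝ) * P)) (by nlinarith) (by nlinarith) (by nlinarith)).1
    have hdn := (mvt F0 P (4 * ((a0 : ℝ) * P)) _ _ hdF0 ((t - 1 / 4) * ((a0 : ℝ) * P))
      (t * ((a0 : ℝ) * P)) (by nlinarith) (by nlinarith) (by nlinarith)).1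
    have hq : d1 / 4 * (P : ℝ) ^ k ≤ d1 * P ^ (k - 1) * (1 / 4 * ((a0 : ℝ) * P)) := by
      rw [hPk]
      have h1 : d1 * P ^ (k - 1) * (1 / 4 * ((a0 : ℝ) * P)) - d1 / 4 * ((P : ℝ) ^ (k - 1) * P) =
          d1 / 4 * P ^ (k - 1) * ((a0 : ℝ) * P - P) := by ring
      have h2 : 0 ≤ d1 / 4 * (P : ℝ) ^ (k - 1) * ((a0 : ℝ) * P - P) :=
        mul_nonneg (by positivity) (by linarith)
      linarith
    obtain ⟨u0, ⟨hu1, hu2⟩, hu3⟩ : ∃ u ∈ Set.Icc ((t - 1 / 4) * ((a0 : ℝ) * P))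
        ((t + 1 / 4) * ((a0 : ℝ) * P)), F0.eval u = τ - ∑ i, ρ ((F i).eval (x i : ℝ)) := by
      apply intermediate_value_Icc (by nlinarith) F0.continuous.continuousOn
      constructor
      · have h1 : t * ((a0 : ℝ) * P) - (t - 1 / 4) * ((a0 : ℝ) * P) = 1 / 4 * ((a0 : ℝ) * P) := by ring
        rw [h1] at hdn
        linarith
      · have h1 : (t + 1 / 4) * ((a0 : ℝ) * P) - t * ((a0 : ℝ) * P) = 1 / 4 * ((a0 : ℝ) * P) := by ring
        rw [h1] at hup
        linarith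
    rw [← hu3]
    have hcast1 : (((a0 * P : ℕ)) : ℝ) = a0 * P := by push_cast; ring
    have hcast2 : (((4 * (a0 * P) : ℕ)) : ℝ) = 4 * (a0 * P) := by push_cast; ring
    apply GI_low F0 a0 P w _ hw (by positivity) u0
    · rw [hcast1]
      nlinarith
    · rw [hcast2]
      have h1 : w / (D0 * P ^ (k - 1)) ≤ 1 / 4 := by
        rw [div_le_iff₀ (by positivity)]
        have h2 : 4 ≤ D0 := by
          rw [hD0]
          have : 0 ≤ d2 * (4 * (a0 : ℝ)) ^ (k - 1) := by positivity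
          linarith
        nlinarith
      nlinarith
    · intro u hu4 hu5
      rw [hcast1] at hu4
      rw [hcast2] at hu5
      obtain ⟨h1, h2⟩ := hdF0 u (by linarith) hu5
      exact ⟨le_trans (by positivity) h1, h2⟩
  -- conclusion
  calc Real.exp (-Real.pi) / D0 * (η / 4) ^ n * w * (P : ℝ) ^ n / (P : ℝ) ^ (k - 1)
      = (η / 4 * P) ^ n * (Real.exp (-Real.pi) * (w / (D0 * P ^ (k - 1)))) := by
        rw [mul_pow]
        field_simp
    _ ≤ (m : ℝ) ^ n * (Real.exp (-Real.pi) * (w / (D0 * P ^ (k - 1)))) := by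
        apply mul_le_mul_of_nonneg_right _ (by positivity)
        exact pow_le_pow_left₀ (by positivity) hm1 n
    _ = ∑ x ∈ B, Real.exp (-Real.pi) * (w / (D0 * P ^ (k - 1))) := by
        rw [Finset.sum_const, nsmul_eq_mul, hBcard]
    _ ≤ ∑ x ∈ B, GI F0 a0 P w (τ - ∑ i, ρ ((F i).eval (x i : ℝ))) := Finset.sum_le_sum hterm
    _ ≤ _ := Finset.sum_le_sum_of_subset_of_nonneg hBsub (fun _ _ _ => GI_nonneg _ _ _ _ _)

end Pool.Agent.L7h22.WA
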