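import Pool.Agent.L7h67.WA.Stm

/-! Tools of project WA (helper67): growth of polynomials and of their derivatives. -/

set_option autoImplicit false

namespace Pool.Agent.L7h22.WA

open Finset MeasureTheory Polynomial Filter Topology
open Pool.Agent.L7h67.WA
open Pool.Agent.Helper602.MK (ee)

theorem norm_ee (x : ℝ) : ‖ee x‖ = 1 := by
  unfold ee
  rw [show (2 * Real.pi * x * Complex.I : ℂ) = ((2 * Real.pi * x : ℝ) : ℂ) * Complex.I by push_cast; ring]
  exact Complex.norm_exp_ofReal_mul_I _

theorem ee_sub_le (x y : ℝ) : ‖ee x - ee y‖ ≤ 2 * Real.pi * |x - y| := by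
  have h1 : ee x = ee y * ee (x - y) := by
    unfold ee
    rw [← Complex.exp_add]
    congr 1
    push_cast
    ring
  have h2 : ee x - ee y = ee y * (ee (x - y) - 1) := by rw [h1]; ring
  rw [h2, norm_mul, norm_ee, one_mul]
  have h3 := Real.norm_exp_I_mul_ofReal_sub_one_le (x := 2 * Real.pi * (x - y))
  have h4 : ee (x - y) = Complex.exp (Complex.I * ((2 * Real.pi * (x - y) : ℝ) : ℂ)) := by
    unfold ee
    congr 1
    push_cast
    ring
  rw [h4]
  refine h3.trans (le_of_eq ?_)
  rw [Real.norm_eq_abs, abs_mul, abs_of_pos (by positivity)]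

theorem ee_cont : Continuous ee := by
  unfold ee
  fun_prop

theorem ee_deriv (x : ℝ) : HasDerivAt ee (2 * Real.pi * Complex.I * ee x) x := by
  unfold ee
  have h1 : HasDerivAt (fun x : ℝ => (2 * Real.pi * x * Complex.I : ℂ)) (2 * Real.pi * Complex.I) x := by
    have h2 := (Complex.ofRealCLM.hasDerivAt (x := x)).const_mul (2 * Real.pi * Complex.I : ℂ)
    simp only [Complex.ofRealCLM_apply, Complex.ofReal_one, mul_one] at h2
    refine h2.congr_of_eventuallyEq ?_
    filter_upwards with y
    ring
  convert! h1.cexp using 1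
  ring

/-- the value divided by the power -/
theorem pol_tendsto (G : ℝ[X]) (n : ℕ) (h : G.natDegree ≤ n) :
    Tendsto (fun u : ℝ => G.eval u / u ^ n) atTop (𝓝 (G.coeff n)) := by
  have h1 : (fun u : ℝ => G.eval u / u ^ n) =
      fun u => ∑ i ∈ range (n + 1), G.coeff i * u ^ i / u ^ n := by
    funext u
    rw [eval_eq_sum_range' (Nat.lt_succ_of_le h), Finset.sum_div]
  rw [h1]
  have h2 : G.coeff n = ∑ i ∈ range (n + 1), if i = n then G.coeff i else 0 := by
    rw [Finset.sum_ite_eq' (range (n + 1)) n, if_pos (mem_range.2 (Nat.lt_succ_self n))]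
  rw [h2]
  apply tendsto_finsetSum
  intro i hi
  by_cases hin : i = n
  · rw [if_pos hin, hin]
    have h3 : (fun _ : ℝ => G.coeff n) =ᶠ[atTop] fun u => G.coeff n * u ^ n / u ^ n := by
      filter_upwards [eventually_gt_atTop 0] with u hu
      field_simp
    exact Tendsto.congr' h3 tendsto_const_nhds
  · rw [if_neg hin]
    have hlt : i < n := by
      have := mem_range.1 hi
      omega
    have h3 : Tendsto (fun u : ℝ => G.coeff i * (u ^ (n - i))⁻¹) atTop (𝓝 (G.coeff i * 0)) := by
      apply Tendsto.const_mul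
      exact tendsto_inv_atTop_zero.comp (tendsto_pow_atTop (by omega))
    rw [mul_zero] at h3
    refine Tendsto.congr' ?_ h3
    filter_upwards [eventually_gt_atTop 0] with u hu
    have h4 : u ^ n = u ^ (n - i) * u ^ i := by
      rw [← pow_add]
      congr 1
      omega
    rw [h4]
    field_simp

/-- growth of the derivatives -/
theorem growth (k : ℕ) (F : ℝ[X]) (hk : 1 ≤ k) (hF : F.natDegree = k) (hl : 0 < F.leadingCoeff) :
    ∃ c1 c2 U : ℝ, 0 < c1 ∧ 0 < c2 ∧ 1 ≤ U ∧ ∀ u : ℝ, U ≤ u →
      c1 * u ^ (k - 1) ≤ (derivative F).eval u ∧ (derivative F).eval u ≤ c2 * u ^ (k - 1) ∧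
      u * |(derivative (derivative F)).eval u| ≤ c2 * u ^ (k - 1) := by
  have hlc : F.coeff k = F.leadingCoeff := by rw [← hF]; rfl
  set q : ℝ := F.leadingCoeff * k with hq
  have hk0 : (0 : ℝ) < k := by exact_mod_cast hk
  have hq0 : 0 < q := mul_pos hl hk0
  have h1 := pol_tendsto (derivative F) (k - 1) (by rw [← hF]; exact natDegree_derivative_le F)
  have hc1 : (derivative F).coeff (k - 1) = q := by
    rw [coeff_derivative, Nat.sub_add_cancel hk, hlc, hq]
    congr 1
    push_cast [Nat.cast_sub hk]
    ring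
  rw [hc1] at h1
  have h2 := pol_tendsto (X * derivative (derivative F)) (k - 1) (by
    rcases Nat.lt_or_ge 1 k with hk2 | hk2
    · refine (natDegree_mul_le).trans ?_
      have h3 := natDegree_derivative_le (derivative F)
      have h4 := natDegree_derivative_le F
      have h5 := natDegree_X_le (R := ℝ)
      omega
    · have hk1 : k = 1 := by omega
      have h3 : derivative (derivative F) = 0 := by
        have h4 := natDegree_derivative_le F
        have h5 : (derivative F).natDegree = 0 := by omega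
        rw [Polynomial.eq_C_of_natDegree_eq_zero h5, derivative_C]
      rw [h3, mul_zero]
      simp)
  set q2 : ℝ := (X * derivative (derivative F)).coeff (k - 1) with hq2
  have e1 := h1.eventually (Ioo_mem_nhds (show q / 2 < q by linarith) (show q < 2 * q by linarith))
  have e2 := h2.eventually (Ioo_mem_nhds (show q2 - 1 < q2 by linarith) (show q2 < q2 + 1 by linarith))
  obtain ⟨U0, hU0⟩ := eventually_atTop.1 (e1.and e2)
  refine ⟨q / 2, 2 * q + (|q2| + 1), max 1 U0, by linarith, by positivity, le_max_left _ _, ?_⟩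
  intro u hu
  have hu1 : 1 ≤ u := (le_max_left _ _).trans hu
  have hu0 : 0 < u := by linarith
  have hup : 0 < u ^ (k - 1) := pow_pos hu0 _
  obtain ⟨⟨ha, hb⟩, hc, hd⟩ := hU0 u ((le_max_right _ _).trans hu)
  rw [lt_div_iff₀ hup] at ha hc
  rw [div_lt_iff₀ hup] at hb hd
  refine ⟨ha.le, ?_, ?_⟩
  · have : 0 ≤ (|q2| + 1) * u ^ (k - 1) := by positivity
    nlinarith
  · rw [eval_mul, eval_X] at hc hd
    rw [show u * |(derivative (derivative F)).eval u| = |u * (derivative (derivative F)).eval u| by
      rw [abs_mul, abs_of_pos hu0]]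
    rw [abs_le]
    have h3 := neg_abs_le q2
    have h4 := le_abs_self q2
    constructor
    · nlinarith [mul_pos hq0 hup, mul_le_mul_of_nonneg_right h3 hup.le]
    · nlinarith [mul_pos hq0 hup, mul_le_mul_of_nonneg_right h4 hup.le]

end Pool.Agent.L7h22.WA
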