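import Pool.Agent.L7h22.WA.Pol

/-! [WA-VAN] of project WA (helper67): the sum minus the integral, and the integral. -/

set_option autoImplicit false

namespace Pool.Agent.L7h22.WA

open Finset MeasureTheory Polynomial Filter Topology
open Pool.Agent.L7h67.WA
open Pool.Agent.Helper602.MK (ee)

theorem eeF_cont (F : ℝ[X]) (β : ℝ) : Continuous (fun u : ℝ => ee (β * F.eval u)) :=
  ee_cont.comp (continuous_const.mul F.continuous)

/-- sum minus integral -/
theorem sum_sub_int (F : ℝ[X]) (A B : ℕ) (hAB : A ≤ B) (β M : ℝ)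
    (hM : ∀ u : ℝ, (A : ℝ) ≤ u → u ≤ B → |(derivative F).eval u| ≤ M) :
    ‖∑ z ∈ Ioc A B, ee (β * F.eval (z : ℝ)) - ∫ u in (A : ℝ)..(B : ℝ), ee (β * F.eval u)‖ ≤
      ((B : ℝ) - A) * (2 * Real.pi * |β| * M) := by
  have h1 : ∑ z ∈ Ioc A B, ee (β * F.eval (z : ℝ)) =
      ∑ j ∈ Ico A B, ee (β * F.eval ((j + 1 : ℕ) : ℝ)) := by
    rw [Finset.sum_Ico_add' (fun z : ℕ => ee (β * F.eval (z : ℝ))) A B 1]
    apply Finset.sum_congr _ (fun _ _ => rfl)
    ext z
    simp only [Finset.mem_Ioc, Finset.mem_Ico]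
    omega
  have h2 : ∫ u in (A : ℝ)..(B : ℝ), ee (β * F.eval u) =
      ∑ j ∈ Ico A B, ∫ u in (j : ℝ)..((j + 1 : ℕ) : ℝ), ee (β * F.eval u) := by
    rw [intervalIntegral.sum_integral_adjacent_intervals_Ico hAB
      (a := fun j : ℕ => (j : ℝ)) (fun j _ => (eeF_cont F β).intervalIntegrable _ _)]
  rw [h1, h2, ← Finset.sum_sub_distrib]
  have h3 : ∀ j ∈ Ico A B, ‖ee (β * F.eval ((j + 1 : ℕ) : ℝ)) -
      ∫ u in (j : ℝ)..((j + 1 : ℕ) : ℝ), ee (β * F.eval u)‖ ≤ 2 * Real.pi * |β| * M := by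
    intro j hj
    rw [Finset.mem_Ico] at hj
    have hA : (A : ℝ) ≤ j := by exact_mod_cast hj.1
    have hB : ((j + 1 : ℕ) : ℝ) ≤ B := by exact_mod_cast hj.2
    have h4 : ee (β * F.eval ((j + 1 : ℕ) : ℝ)) =
        ∫ u in (j : ℝ)..((j + 1 : ℕ) : ℝ), ee (β * F.eval ((j + 1 : ℕ) : ℝ)) := by
      rw [intervalIntegral.integral_const]
      push_cast
      simp
    rw [h4, ← intervalIntegral.integral_sub (by simp) ((eeF_cont F β).intervalIntegrable _ _)]
    have h5 := intervalIntegral.norm_integral_le_of_norm_le_const (a := (j : ℝ))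
      (b := ((j + 1 : ℕ) : ℝ)) (C := 2 * Real.pi * |β| * M)
      (f := fun u : ℝ => ee (β * F.eval ((j + 1 : ℕ) : ℝ)) - ee (β * F.eval u)) (by
        intro u hu
        rw [Set.uIoc_of_le (by push_cast; linarith)] at hu
        refine (ee_sub_le _ _).trans ?_
        rw [← mul_sub, abs_mul]
        have h6 : |F.eval ((j + 1 : ℕ) : ℝ) - F.eval u| ≤ M * |((j + 1 : ℕ) : ℝ) - u| := by
          have h7 := Convex.norm_image_sub_le_of_norm_hasDerivWithin_le
            (f := fun u : ℝ => F.eval u) (f' := fun u : ℝ => (derivative F).eval u)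
            (s := Set.Icc (A : ℝ) B) (C := M) (x := u) (y := ((j + 1 : ℕ) : ℝ))
            (fun v _ => (F.hasDerivAt v).hasDerivWithinAt)
            (fun v hv => by rw [Real.norm_eq_abs]; exact hM v hv.1 hv.2) (convex_Icc _ _)
            ⟨by linarith [hu.1], by linarith [hu.2]⟩ ⟨by push_cast; linarith, hB⟩
          rw [Real.norm_eq_abs, Real.norm_eq_abs] at h7
          exact h7
        have h8 : |((j + 1 : ℕ) : ℝ) - u| ≤ 1 := by
          rw [abs_of_nonneg (by linarith [hu.2])]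
          push_cast at hu ⊢
          linarith [hu.1]
        have hM0 : 0 ≤ M := (abs_nonneg _).trans (hM j hA (by push_cast at hB; linarith))
        have h9 : |F.eval ((j + 1 : ℕ) : ℝ) - F.eval u| ≤ M := by
          refine h6.trans ?_
          nlinarith
        have h10 : |β| * |F.eval ((j + 1 : ℕ) : ℝ) - F.eval u| ≤ |β| * M :=
          mul_le_mul_of_nonneg_left h9 (abs_nonneg _)
        have h11 := Real.pi_pos
        nlinarith)
    refine h5.trans (le_of_eq ?_)
    have h6 : |((j + 1 : ℕ) : ℝ) - j| = 1 := by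
      push_cast
      simp
    rw [h6, mul_one]
  refine (norm_sum_le _ _).trans ((Finset.sum_le_sum h3).trans (le_of_eq ?_))
  rw [Finset.sum_const, Nat.card_Ico, nsmul_eq_mul, Nat.cast_sub hAB]

/-- one integration by parts -/
theorem int_parts (F : ℝ[X]) (a b : ℝ) (hab : a ≤ b) (β m S : ℝ) (hm : 0 < m)
    (h1 : ∀ u : ℝ, a ≤ u → u ≤ b → m ≤ (derivative F).eval u)
    (h2 : ∀ u : ℝ, a ≤ u → u ≤ b → |(derivative (derivative F)).eval u| ≤ S) :
    2 * Real.pi * (|β| * ‖∫ u in a..b, ee (β * F.eval u)‖) ≤ 2 / m + (b - a) * (S / m ^ 2) := by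
  have hd : ∀ u ∈ Set.uIcc a b, HasDerivAt (fun u : ℝ => ((((derivative F).eval u)⁻¹ : ℝ) : ℂ))
      (((-(derivative (derivative F)).eval u / (derivative F).eval u ^ 2 : ℝ)) : ℂ) u := by
    intro u hu
    rw [Set.uIcc_of_le hab] at hu
    have h3 : (derivative F).eval u ≠ 0 := by linarith [h1 u hu.1 hu.2, hm]
    exact (((derivative F).hasDerivAt u).inv h3).ofReal_comp
  have hv : ∀ u ∈ Set.uIcc a b, HasDerivAt (fun u : ℝ => ee (β * F.eval u))
      (2 * Real.pi * Complex.I * β * ((derivative F).eval u : ℝ) * ee (β * F.eval u)) u := by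
    intro u _
    have h3 := (ee_deriv (β * F.eval u)).scomp u ((F.hasDerivAt u).const_mul β)
    convert! h3 using 1
    rw [Complex.real_smul]
    push_cast
    ring
  have hFc : ContinuousOn (fun u : ℝ => (derivative F).eval u) (Set.uIcc a b) :=
    (derivative F).continuous.continuousOn
  have hne : ∀ u ∈ Set.uIcc a b, (derivative F).eval u ^ 2 ≠ 0 := by
    intro u hu
    rw [Set.uIcc_of_le hab] at hu
    have h3 : 0 < (derivative F).eval u := by linarith [h1 u hu.1 hu.2, hm]
    positivity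
  have hi1 : IntervalIntegrable (fun u : ℝ =>
      (((-(derivative (derivative F)).eval u / (derivative F).eval u ^ 2 : ℝ)) : ℂ)) volume a b := by
    apply ContinuousOn.intervalIntegrable
    apply Complex.continuous_ofReal.comp_continuousOn
    exact ContinuousOn.div ((derivative (derivative F)).continuous.continuousOn).neg
      (hFc.pow 2) hne
  have hi2 : IntervalIntegrable (fun u : ℝ =>
      2 * Real.pi * Complex.I * β * ((derivative F).eval u : ℝ) * ee (β * F.eval u)) volume a b := by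
    apply Continuous.intervalIntegrable
    exact (continuous_const.mul (Complex.continuous_ofReal.comp (derivative F).continuous)).mul
      (eeF_cont F β)
  have h3 := intervalIntegral.integral_mul_deriv_eq_deriv_mul hd hv hi1 hi2
  have h4 : ∫ u in a..b, ((((derivative F).eval u)⁻¹ : ℝ) : ℂ) *
      (2 * Real.pi * Complex.I * β * ((derivative F).eval u : ℝ) * ee (β * F.eval u)) =
      (2 * Real.pi * Complex.I * β) * ∫ u in a..b, ee (β * F.eval u) := by
    rw [← intervalIntegral.integral_const_mul]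
    apply intervalIntegral.integral_congr
    intro u hu
    rw [Set.uIcc_of_le hab] at hu
    have h5 : (((derivative F).eval u : ℝ) : ℂ) ≠ 0 := by
      rw [Ne, Complex.ofReal_eq_zero]
      linarith [h1 u hu.1 hu.2, hm]
    simp only
    push_cast
    field_simp
  rw [h4] at h3
  have h5 : 2 * Real.pi * (|β| * ‖∫ u in a..b, ee (β * F.eval u)‖) =
      ‖(2 * Real.pi * Complex.I * β) * ∫ u in a..b, ee (β * F.eval u)‖ := by
    rw [norm_mul, norm_mul, norm_mul, norm_mul, Complex.norm_I, Complex.norm_real,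
      Complex.norm_real, Real.norm_eq_abs, Real.norm_eq_abs, abs_of_pos Real.pi_pos]
    simp
    ring
  rw [h5, h3]
  have hinv : ∀ u : ℝ, a ≤ u → u ≤ b → ‖((((derivative F).eval u)⁻¹ : ℝ) : ℂ) *
      ee (β * F.eval u)‖ ≤ 1 / m := by
    intro u hu1 hu2
    have h6 := h1 u hu1 hu2
    rw [norm_mul, norm_ee, mul_one, Complex.norm_real, Real.norm_eq_abs,
      abs_of_pos (inv_pos.2 (by linarith)), one_div]
    exact inv_anti₀ hm h6
  refine (norm_sub_le _ _).trans ?_
  have h6 := (norm_sub_le (((((derivative F).eval b)⁻¹ : ℝ) : ℂ) * ee (β * F.eval b))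
    (((((derivative F).eval a)⁻¹ : ℝ) : ℂ) * ee (β * F.eval a)))
  have h7 := hinv b hab le_rfl
  have h8 := hinv a le_rfl hab
  have h9 : ‖∫ u in a..b, (((-(derivative (derivative F)).eval u /
      (derivative F).eval u ^ 2 : ℝ)) : ℂ) * ee (β * F.eval u)‖ ≤ (S / m ^ 2) * |b - a| := by
    apply intervalIntegral.norm_integral_le_of_norm_le_const
    intro u hu
    rw [Set.uIoc_of_le hab] at hu
    have h10 := h1 u hu.1.le hu.2
    have h11 := h2 u hu.1.le hu.2
    have h12 : 0 < (derivative F).eval u := by linarith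
    rw [norm_mul, norm_ee, mul_one, Complex.norm_real, Real.norm_eq_abs, abs_div, abs_neg,
      abs_of_pos (pow_pos h12 2)]
    exact div_le_div₀ ((abs_nonneg _).trans h11) h11 (by positivity)
      (pow_le_pow_left₀ hm.le h10 2)
  rw [abs_of_nonneg (sub_nonneg.2 hab)] at h9
  have h10 : 2 / m = 1 / m + 1 / m := by ring
  rw [h10]
  linarith

/-- [WA-VAN] -/
theorem s_VAN : S_VAN := by
  intro k F hk hF hl a ha
  obtain ⟨c1, c2, U, hc1, hc2, hU1, hU⟩ := growth k F hk hF hl
  have ha1 : (1 : ℝ) ≤ a := by exact_mod_cast ha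
  have hpi := Real.pi_pos
  refine ⟨3 * a * (2 * Real.pi * (c2 * (4 * a) ^ (k - 1))) +
    (2 / c1 + 3 * (c2 * 4 ^ (k - 1)) / c1 ^ 2), by positivity, ?_⟩
  filter_upwards [eventually_ge_atTop (max 1 ⌈U⌉₊)] with P hP β
  have hP1 : 1 ≤ P := (le_max_left _ _).trans hP
  have hPU : U ≤ P := (Nat.le_ceil U).trans (by exact_mod_cast (le_max_right _ _).trans hP)
  have hP1' : (1 : ℝ) ≤ P := by exact_mod_cast hP1
  have hP0 : (0 : ℝ) < P := by linarith
  have hPp : (0 : ℝ) < (P : ℝ) ^ (k - 1) := pow_pos hP0 _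
  have hPk : (P : ℝ) ^ k = P ^ (k - 1) * P := by
    rw [← pow_succ]
    congr 1
    omega
  have haP : (P : ℝ) ≤ a * P := by nlinarith
  have hcast1 : (((a * P : ℕ)) : ℝ) = a * P := by push_cast; ring
  have hcast2 : (((4 * (a * P) : ℕ)) : ℝ) = 4 * (a * P) := by push_cast; ring
  constructor
  · unfold WS WI
    have h1 := sum_sub_int F (a * P) (4 * (a * P)) (by omega) β (c2 * (4 * a) ^ (k - 1) * P ^ (k - 1))
      (by
        intro u hu1 hu2
        rw [hcast1] at hu1
        rw [hcast2] at hu2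
        obtain ⟨h3, h4, _⟩ := hU u (by linarith)
        have hu0 : 0 < u := by linarith
        rw [abs_of_pos (lt_of_lt_of_le (mul_pos hc1 (pow_pos hu0 _)) h3)]
        refine h4.trans ?_
        rw [mul_assoc]
        apply mul_le_mul_of_nonneg_left _ hc2.le
        rw [← mul_pow]
        apply pow_le_pow_left₀ hu0.le
        linarith)
    refine h1.trans ?_
    rw [hcast1, hcast2, hPk]
    have h2 : 0 ≤ (2 / c1 + 3 * (c2 * 4 ^ (k - 1)) / c1 ^ 2) * |β| * ((P : ℝ) ^ (k - 1) * P) := by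
      positivity
    have h3 : (4 * ((a : ℝ) * P) - a * P) * (2 * Real.pi * |β| * (c2 * (4 * a) ^ (k - 1) * P ^ (k - 1))) =
        3 * a * (2 * Real.pi * (c2 * (4 * a) ^ (k - 1))) * |β| * ((P : ℝ) ^ (k - 1) * P) := by ring
    rw [h3, add_mul, add_mul]
    linarith
  · unfold WI
    rw [hcast1, hcast2]
    have hA : (0 : ℝ) < ((a : ℝ) * P) := by positivity
    have hAp : (0 : ℝ) < ((a : ℝ) * P) ^ (k - 1) := pow_pos hA _
    have h1 := int_parts F (a * P) (4 * (a * P)) (by linarith) β (c1 * (a * P) ^ (k - 1))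
      (c2 * (4 * (a * P)) ^ (k - 1) / (a * P)) (by positivity)
      (by
        intro u hu1 hu2
        refine le_trans ?_ (hU u (by linarith)).1
        exact mul_le_mul_of_nonneg_left (pow_le_pow_left₀ hA.le hu1 _) hc1.le)
      (by
        intro u hu1 hu2
        rw [le_div_iff₀ hA]
        have h2 := (hU u (by linarith)).2.2
        calc |(derivative (derivative F)).eval u| * (a * P)
            ≤ |(derivative (derivative F)).eval u| * u :=
              mul_le_mul_of_nonneg_left hu1 (abs_nonneg _)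
          _ = u * |(derivative (derivative F)).eval u| := mul_comm _ _
          _ ≤ c2 * u ^ (k - 1) := h2
          _ ≤ _ := mul_le_mul_of_nonneg_left (pow_le_pow_left₀ (hA.le.trans hu1) hu2 _) hc2.le)
    have h2 : 2 / (c1 * ((a : ℝ) * P) ^ (k - 1)) + (4 * ((a : ℝ) * P) - a * P) *
        (c2 * (4 * ((a : ℝ) * P)) ^ (k - 1) / (a * P) / (c1 * (a * P) ^ (k - 1)) ^ 2) =
        (2 / c1 + 3 * (c2 * 4 ^ (k - 1)) / c1 ^ 2) / ((a : ℝ) * P) ^ (k - 1) := by
      rw [mul_pow 4]
      generalize ((a : ℝ) * P) ^ (k - 1) = Z at hAp ⊢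
      generalize (a : ℝ) * P = Y at hA ⊢
      field_simp
      ring
    rw [h2] at h1
    have h3 : (P : ℝ) ^ (k - 1) ≤ ((a : ℝ) * P) ^ (k - 1) := pow_le_pow_left₀ hP0.le haP _
    have h4 : |β| * ‖∫ u in ((a : ℝ) * P)..(4 * ((a : ℝ) * P)), ee (β * F.eval u)‖ ≤
        2 * Real.pi * (|β| * ‖∫ u in ((a : ℝ) * P)..(4 * ((a : ℝ) * P)), ee (β * F.eval u)‖) := by
      have h5 : 0 ≤ |β| * ‖∫ u in ((a : ℝ) * P)..(4 * ((a : ℝ) * P)), ee (β * F.eval u)‖ := by
        positivity
      have h6 := Real.pi_gt_three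
      nlinarith
    refine h4.trans (h1.trans ?_)
    apply div_le_div₀ (by positivity) _ hPp h3
    have : 0 ≤ 3 * (a : ℝ) * (2 * Real.pi * (c2 * (4 * a) ^ (k - 1))) := by positivity
    linarith

end Pool.Agent.L7h22.WA
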